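import Pool.Agent.Lib.MP_98dfd6_al.AS.Sec

/-! Degrees of irreducible representations along a composition series. -/

namespace Pool.Agent.Lib.MP_98dfd6_al.AS

variable {k G : Type} [Field k] [Group G]

theorem rep_mul {V : Type} [AddCommGroup V] [Module k V] (ρ : Representation k G V) (a b : G)
    (v : V) : ρ a (ρ b v) = ρ (a * b) v := by
  rw [map_mul, Module.End.mul_apply]

theorem rep_eq_zero {V : Type} [AddCommGroup V] [Module k V] (ρ : Representation k G V) (a : G)
    (v : V) : ρ a v = 0 ↔ v = 0 := by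
  constructor
  · intro h
    have h1 := rep_mul ρ a⁻¹ a v
    rw [h, map_zero, inv_mul_cancel, map_one, Module.End.one_apply] at h1
    exact h1.symm
  · rintro rfl
    exact map_zero _

theorem irr_sep {V W : Type} [AddCommGroup V] [Module k V] [AddCommGroup W] [Module k W]
    (ρ : Representation k G V) (hρ : ρ.IsIrreducible) {φ : V →ₗ[k] W} (hφ : φ ≠ 0) {v : V}
    (h : ∀ g, φ (ρ g v) = 0) : v = 0 := by
  let K : Submodule k V := ⨅ g, LinearMap.ker (φ ∘ₗ ρ g)
  have hK : ∀ v, v ∈ K ↔ ∀ g, φ (ρ g v) = 0 := by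
    intro v
    simp [K, Submodule.mem_iInf]
  rcases inv_cases_Rep3 ρ hρ K (fun a w hw => (hK _).2 fun g => by
    rw [rep_mul]
    exact (hK _).1 hw _) with h0 | h0
  · have h1 := (hK v).2 h
    rwa [h0, Submodule.mem_bot] at h1
  · exfalso
    apply hφ
    refine LinearMap.ext fun w => ?_
    simpa using (hK w).1 (h0 ▸ Submodule.mem_top) 1

theorem irr_comp {G' W : Type} [Group G'] [AddCommGroup W] [Module k W]
    (θ : Representation k G' W) (hθ : θ.IsIrreducible) (f : G →* G')
    (hf : Function.Surjective f) : Representation.IsIrreducible (θ.comp f) := by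
  let o : Subrepresentation (θ.comp f) ≃o Subrepresentation θ :=
    { toFun := fun S => ⟨S.toSubmodule, fun g v hv => by
        obtain ⟨x, rfl⟩ := hf g
        exact S.apply_mem_toSubmodule x hv⟩
      invFun := fun S => ⟨S.toSubmodule, fun g v hv => S.apply_mem_toSubmodule (f g) hv⟩
      left_inv := fun _ => rfl
      right_inv := fun _ => rfl
      map_rel_iff' := Iff.rfl }
  exact o.isSimpleOrder

theorem irr_pos {d : ℕ} (ρ : Representation k G (Fin d → k)) (hρ : ρ.IsIrreducible) : 0 < d := by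
  have h1 := nontrivial_Rep3 ρ hρ
  have h2 : 0 < Module.finrank k (Fin d → k) := Module.finrank_pos
  rwa [Module.finrank_fin_fun] at h2

theorem exists_irr_quot {V : Type} [AddCommGroup V] [Module k V] [Module.Finite k V]
    [Nontrivial V] (σ : Representation k G V) :
    ∃ (e : ℕ) (θ : Representation k G (Fin e → k)) (φ : V →ₗ[k] (Fin e → k)), θ.IsIrreducible ∧
      φ ≠ 0 ∧ ∀ g v, φ (σ g v) = θ g (φ v) := by
  obtain ⟨U, ⟨hU0, hU⟩, hmax⟩ := (wellFounded_gt (α := Submodule k V)).has_min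
    {U | U ≠ ⊤ ∧ ∀ g, U ≤ U.comap (σ g)} ⟨⊥, bot_ne_top, fun _ => bot_le⟩
  have : Nontrivial (V ⧸ U) := Submodule.Quotient.nontrivial_iff.2 hU0
  obtain ⟨e, θ, ψ, h1, -, h2, h3, h4⟩ := exists_irr_rep1 (σ.quotient U hU)
  have hq : ∀ g v, σ.quotient U hU g (U.mkQ v) = U.mkQ (σ g v) := fun _ _ => rfl
  have : Nonempty (Fin e) := ⟨⟨0, h3⟩⟩
  obtain ⟨w, hw⟩ := exists_ne (0 : Fin e → k)
  have hs : Function.Surjective ψ := by
    have h5 : (LinearMap.range ψ).comap U.mkQ = ⊤ := by
      by_contra hcon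
      refine hmax ((LinearMap.range ψ).comap U.mkQ) ⟨hcon, ?_⟩ (lt_of_le_of_ne ?_ ?_)
      · rintro g v ⟨x, hx⟩
        exact ⟨θ g x, by rw [h4, hx, hq]⟩
      · intro v hv
        exact ⟨0, by rw [map_zero]; exact ((Submodule.Quotient.mk_eq_zero U).2 hv).symm⟩
      · intro h6
        obtain ⟨v, hv⟩ := U.mkQ_surjective (ψ w)
        have h7 : v ∈ U := by
          rw [h6]
          exact ⟨w, hv.symm⟩
        apply hw
        apply h2
        rw [← hv, map_zero]
        exact (Submodule.Quotient.mk_eq_zero U).2 h7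
    intro y
    obtain ⟨v, rfl⟩ := U.mkQ_surjective y
    have h6 : v ∈ (LinearMap.range ψ).comap U.mkQ := h5 ▸ Submodule.mem_top
    exact h6
  let E := LinearEquiv.ofBijective ψ ⟨h2, hs⟩
  have hE : ∀ y, ψ (E.symm y) = y := fun y => E.apply_symm_apply y
  refine ⟨e, θ, E.symm.toLinearMap ∘ₗ U.mkQ, h1, fun h => ?_, fun g v => h2 ?_⟩
  · obtain ⟨v, hv⟩ := U.mkQ_surjective (ψ w)
    have h6 : E.symm (U.mkQ v) = 0 := LinearMap.congr_fun h v
    apply hw
    apply h2
    rw [← hv, ← hE (U.mkQ v), h6]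
  · change ψ (E.symm (U.mkQ (σ g v))) = ψ (θ g (E.symm (U.mkQ v)))
    rw [h4, hE, hE, hq]

theorem dim_le [Finite G] {d : ℕ} (ρ : Representation k G (Fin d → k)) (hρ : ρ.IsIrreducible)
    (Y : Subgroup G) {W : Type} [AddCommGroup W] [Module k W] [Module.Finite k W]
    (θ : Representation k Y W) {φ : (Fin d → k) →ₗ[k] W} (hφ : φ ≠ 0)
    (h : ∀ (y : Y) (v), φ (ρ y v) = θ y (φ v)) : d ≤ Y.index * Module.finrank k W := by
  have : Fintype (G ⧸ Y) := Fintype.ofFinite _
  have hr : Function.Injective (LinearMap.pi fun q : G ⧸ Y => φ ∘ₗ ρ (q.out)⁻¹) := by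
    rw [injective_iff_map_eq_zero]
    intro v hv
    refine irr_sep ρ hρ hφ fun g => ?_
    obtain ⟨u, hu⟩ := QuotientGroup.mk_out_eq_mul Y g⁻¹
    have h1 : φ (ρ ((QuotientGroup.mk g⁻¹ : G ⧸ Y).out)⁻¹ v) = 0 := congrFun hv _
    have h2 := h u (ρ ((QuotientGroup.mk g⁻¹ : G ⧸ Y).out)⁻¹ v)
    rw [h1, map_zero, hu, rep_mul] at h2
    simpa using h2
  have := LinearMap.finrank_le_finrank_of_injective hr
  rw [Module.finrank_pi_fintype, Module.finrank_pi_fintype] at this
  simpa [Subgroup.index, Nat.card_eq_fintype_card] using this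

theorem prime_step [Finite G] [IsAlgClosed k] {d e : ℕ} (ρ : Representation k G (Fin d → k))
    (hρ : ρ.IsIrreducible) (Y : Subgroup G) [Y.Normal] (hq : Y.index.Prime)
    (θ : Representation k Y (Fin e → k)) (hθ : θ.IsIrreducible)
    {φ : (Fin d → k) →ₗ[k] (Fin e → k)} (hφ : φ ≠ 0)
    (h : ∀ (y : Y) (v), φ (ρ y v) = θ y (φ v)) : d = e ∨ d = Y.index * e := by
  have hcj : ∀ (g : G) (y : Y) (v), ρ g (ρ y v) = ρ (MulAut.conjNormal g y : Y) (ρ g v) := by
    intro g y v
    rw [rep_mul, rep_mul, MulAut.conjNormal_apply, inv_mul_cancel_right]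
  by_cases hA : ∃ g, g ∉ Y ∧ ∃ α : (Fin e → k) ≃ₗ[k] (Fin e → k),
      ∀ y w, α (θ (MulAut.conjNormal g y) w) = θ y (α w)
  · left
    obtain ⟨g, hg, α, hα⟩ := hA
    let Hm : Submodule k ((Fin d → k) →ₗ[k] (Fin e → k)) :=
      { carrier := {f | ∀ (y : Y) (v), f (ρ y v) = θ y (f v)}
        add_mem' := fun {a b} ha hb y v => by
          rw [LinearMap.add_apply, LinearMap.add_apply, map_add, ha y v, hb y v]
        zero_mem' := fun y v => by simp
        smul_mem' := fun c a ha y v => by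
          rw [LinearMap.smul_apply, LinearMap.smul_apply, map_smul, ha y v] }
    let L : Module.End k Hm :=
      { toFun := fun f => ⟨α.toLinearMap ∘ₗ f.1 ∘ₗ ρ g, fun y v => by
          change α (f.1 (ρ g (ρ y v))) = θ y (α (f.1 (ρ g v)))
          rw [hcj, f.2, hα]⟩
        map_add' := fun a b => Subtype.ext (LinearMap.ext fun v => by simp)
        map_smul' := fun c a => Subtype.ext (LinearMap.ext fun v => by simp) }
    have : Nontrivial Hm := ⟨⟨φ, h⟩, 0, fun h0 => hφ (congrArg Subtype.val h0)⟩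
    obtain ⟨c, hc⟩ := Module.End.exists_eigenvalue (K := k) (V := Hm) L
    obtain ⟨f, hf⟩ := hc.exists_hasEigenvector
    have hf0 : f.1 ≠ 0 := fun h0 => hf.2 (Subtype.ext h0)
    have hf1 : ∀ v, α (f.1 (ρ g v)) = c • f.1 v := fun v =>
      LinearMap.congr_fun (congrArg Subtype.val hf.apply_eq_smul) v
    have hc0 : c ≠ 0 := by
      rintro rfl
      apply hf0
      refine LinearMap.ext fun v => ?_
      obtain ⟨u, rfl⟩ := surj_rep2 ρ g v
      have h1 := hf1 u
      rw [zero_smul] at h1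
      exact α.map_eq_zero_iff.1 h1
    let Z : Subgroup G :=
      { carrier := {x | ∀ v, f.1 (ρ x v) = 0 ↔ f.1 v = 0}
        one_mem' := fun v => by simp
        mul_mem' := fun {a b} ha hb v => by rw [← rep_mul, ha, hb]
        inv_mem' := fun {a} ha v => by
          rw [← ha, rep_mul, mul_inv_cancel, map_one, Module.End.one_apply] }
    have hYZ : Y ≤ Z := fun y hy v => by
      rw [f.2 ⟨y, hy⟩ v]
      exact rep_eq_zero θ _ _
    have hgZ : g ∈ Z := fun v => by
      rw [← α.map_eq_zero_iff, hf1, smul_eq_zero]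
      exact or_iff_right hc0
    have hZ : Z = ⊤ := by
      rcases (Nat.dvd_prime hq).1 (Subgroup.index_dvd_of_le hYZ) with h1 | h1
      · exact Subgroup.index_eq_one.1 h1
      · have h2 := Subgroup.relIndex_mul_index hYZ
        rw [h1] at h2
        have h3 : Y.relIndex Z = 1 := by
          have := hq.pos
          nlinarith [Nat.eq_of_mul_eq_mul_right this (h2.trans (one_mul _).symm)]
        exact absurd (Subgroup.relIndex_eq_one.1 h3 hgZ) hg
    have hinj : Function.Injective f.1 := by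
      rw [injective_iff_map_eq_zero]
      intro v hv
      refine irr_sep ρ hρ hf0 fun x => ?_
      have hx : x ∈ Z := hZ ▸ Subgroup.mem_top x
      exact (hx v).2 hv
    have h1 := LinearMap.finrank_le_finrank_of_injective hinj
    rw [Module.finrank_fin_fun, Module.finrank_fin_fun] at h1
    exact le_antisymm h1 (Nat.le_of_dvd (irr_pos ρ hρ) (clifford_dvd ρ hρ Y θ hθ φ hφ h))
  · right
    have h1 := dim_le ρ hρ Y θ hφ h
    rw [Module.finrank_fin_fun] at h1
    refine le_antisymm h1 ?_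
    have : Fintype (G ⧸ Y) := Fintype.ofFinite _
    have h2 := indepS (G := Y) (ι := G ⧸ Y) (ρ.comp Y.subtype)
      (fun q => θ.comp (MulAut.conjNormal (q.out)⁻¹ : MulAut Y).toMonoidHom)
      (fun q => irr_comp θ hθ _ (MulAut.conjNormal (q.out)⁻¹ : MulAut Y).surjective) ?_
      (fun q => φ ∘ₗ ρ (q.out)⁻¹) ?_ ?_
    · rwa [Module.finrank_fin_fun, ← Nat.card_eq_fintype_card] at h2
    · rintro q q' ⟨E⟩
      by_contra hne
      refine hA ⟨(q.out)⁻¹ * q'.out, fun hm => hne ?_, E.toLinearEquiv, fun y w => ?_⟩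
      · rw [← q.out_eq, ← q'.out_eq]
        exact Quotient.sound (QuotientGroup.leftRel_apply.2 hm)
      · have h3 := LinearMap.congr_fun (E.isIntertwining' (MulAut.conjNormal q'.out y)) w
        have h4 : MulAut.conjNormal (q'.out)⁻¹ (MulAut.conjNormal q'.out y) = y := by
          rw [← MulAut.mul_apply, ← map_mul, inv_mul_cancel, map_one, MulAut.one_apply]
        rw [map_mul, MulAut.mul_apply]
        conv_rhs => rw [← h4]
        exact h3
    · intro q h0
      apply hφ
      refine LinearMap.ext fun v => ?_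
      obtain ⟨u, rfl⟩ := surj_rep2 ρ (q.out)⁻¹ v
      exact LinearMap.congr_fun h0 u
    · intro q y v
      change φ (ρ (q.out)⁻¹ (ρ y v)) = θ (MulAut.conjNormal (q.out)⁻¹ y) (φ (ρ (q.out)⁻¹ v))
      rw [hcj, h]

theorem exists_maxN (X : Type) [Group X] [Finite X] [Nontrivial X] :
    ∃ Y : Subgroup X, ∃ _ : Y.Normal, Y ≠ ⊤ ∧ IsSimpleGroup (X ⧸ Y) := by
  obtain ⟨Y, ⟨h1, h2⟩, hmax⟩ := (wellFounded_gt (α := Subgroup X)).has_min
    {Y | Y.Normal ∧ Y ≠ ⊤} ⟨⊥, inferInstance, bot_ne_top⟩
  have : Nontrivial (X ⧸ Y) := QuotientGroup.nontrivial_iff.2 h2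
  refine ⟨Y, h1, h2, ⟨fun L hL => ?_⟩⟩
  have hs : Function.Surjective (QuotientGroup.mk' Y) := QuotientGroup.mk'_surjective Y
  have hle : Y ≤ L.comap (QuotientGroup.mk' Y) := by
    intro y hy
    have : QuotientGroup.mk' Y y = 1 := (QuotientGroup.eq_one_iff y).2 hy
    rw [Subgroup.mem_comap, this]
    exact L.one_mem
  rw [← Subgroup.map_comap_eq_self_of_surjective hs L]
  by_cases h3 : L.comap (QuotientGroup.mk' Y) = ⊤
  · right
    rw [h3, Subgroup.map_top_of_surjective _ hs]
  · left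
    have h4 : Y = L.comap (QuotientGroup.mk' Y) := by
      by_contra h4
      exact hmax _ ⟨hL.comap _, h3⟩ (lt_of_le_of_ne hle h4)
    rw [← h4, Subgroup.map_eq_bot_iff, QuotientGroup.ker_mk']

theorem deg_dvd [IsAlgClosed k] (s n : ℕ) : ∀ (X : Type) [Group X] [Finite X], Nat.card X = n →
    Sec X s → ∀ (d : ℕ) (ρ : Representation k X (Fin d → k)), ρ.IsIrreducible →
    d ∣ s.factorial ^ Nat.log 2 n * n := by
  induction n using Nat.strong_induction_on with
  | _ n ih =>
    intro X _ _ hn hX d ρ hρ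
    have hd := irr_pos ρ hρ
    rcases subsingleton_or_nontrivial X with h0 | h0
    · have h1 := dim_le ρ hρ ⊥ (1 : Representation k (⊥ : Subgroup X) k)
        (φ := LinearMap.proj ⟨0, hd⟩) (fun h => by
          simpa using LinearMap.congr_fun h (fun _ => 1)) (fun y v => by
          rw [Subsingleton.elim (y : X) 1]
          simp)
      rw [Subgroup.index_bot, Nat.card_of_subsingleton (1 : X), Module.finrank_self] at h1
      have h2 : d = 1 := by omega
      rw [h2]
      exact one_dvd _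
    · obtain ⟨Y, _, hY, hS⟩ := exists_maxN X
      have := nontrivial_Rep3 ρ hρ
      obtain ⟨e, θ, φ, hθ, hφ, h⟩ := exists_irr_quot (G := Y) (ρ.comp Y.subtype)
      have hm : Y.index * Nat.card Y = n := by rw [Y.index_mul_card, hn]
      have hi0 : Y.index ≠ 0 := Subgroup.index_ne_zero_of_finite
      have hi1 : Y.index ≠ 1 := fun h => hY (Subgroup.index_eq_one.1 h)
      have hc : 0 < Nat.card Y := Nat.card_pos
      have hi2 : 2 ≤ Y.index := by omega
      have hle : Nat.card Y * 2 ≤ n := by rw [← hm]; nlinarith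
      have hlog : Nat.log 2 (Nat.card Y) + 1 ≤ Nat.log 2 n := by
        rw [← Nat.log_mul_base (by norm_num) hc.ne']
        exact Nat.log_mono_right hle
      have he := ih _ (by omega) Y rfl (hX.subgroup Y) e θ hθ
      have hp : s.factorial ^ (Nat.log 2 (Nat.card Y) + 1) ∣ s.factorial ^ Nat.log 2 n :=
        pow_dvd_pow _ hlog
      by_cases hab : ∃ a b : X ⧸ Y, a * b ≠ b * a
      · have h1 : Y.index ≤ s := hX X (X ⧸ Y) (MonoidHom.id X) (QuotientGroup.mk' Y)
          Function.injective_id (QuotientGroup.mk'_surjective Y) hS hab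
        obtain ⟨c, rfl⟩ := clifford_dvd ρ hρ Y θ hθ φ hφ h
        have h2 := dim_le ρ hρ Y θ hφ h
        rw [Module.finrank_fin_fun, mul_comm Y.index] at h2
        have h3 : c ∣ s.factorial := Nat.dvd_factorial (Nat.pos_of_mul_pos_left hd)
          ((Nat.le_of_mul_le_mul_left h2 (irr_pos θ hθ)).trans h1)
        refine (mul_dvd_mul he h3).trans ?_
        rw [mul_right_comm, ← pow_succ]
        exact mul_dvd_mul hp ⟨Y.index, by rw [← hm, mul_comm]⟩
      · push Not at hab
        let : CommGroup (X ⧸ Y) := { (inferInstance : Group (X ⧸ Y)) with mul_comm := hab }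
        have hq : Y.index.Prime := IsSimpleGroup.prime_card (α := X ⧸ Y)
        have h1 : d ∣ Y.index * e := by
          rcases prime_step ρ hρ Y hq θ hθ hφ h with h1 | h1
          · rw [h1]
            exact Dvd.intro_left _ rfl
          · rw [h1]
        refine h1.trans ((Nat.mul_dvd_mul_left _ he).trans ?_)
        rw [mul_left_comm, hm]
        exact Nat.mul_dvd_mul_right ((pow_dvd_pow _ (Nat.le_succ _)).trans hp) _

end Pool.Agent.Lib.MP_98dfd6_al.AS
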