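import Pool.Agent.Lib.MP_98dfd6_al.AS.Sec

/-! Orders of primitive groups with small non-abelian simple sections. -/

namespace Pool.Agent.Lib.MP_98dfd6_al.AS

variable {G : Type} [Group G] [Finite G]

theorem relIndex_sup_le {H S : Subgroup G} (h : H ≤ Subgroup.normalizer (S : Set G)) :
    H.relIndex (S ⊔ H) ≤ Nat.card S := by
  refine Nat.card_le_card_of_surjective (fun x : S =>
    (((⟨x, Subgroup.mem_sup_left x.2⟩ : (S ⊔ H : Subgroup G)) :
      (S ⊔ H : Subgroup G) ⧸ H.subgroupOf (S ⊔ H)))) ?_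
  intro q
  obtain ⟨y, rfl⟩ := QuotientGroup.mk_surjective q
  have hy : (y : G) ∈ ((S ⊔ H : Subgroup G) : Set G) := y.2
  rw [Subgroup.coe_mul_of_right_le_normalizer_left S H h] at hy
  obtain ⟨a, ha, b, hb, hab⟩ := hy
  refine ⟨⟨a, ha⟩, QuotientGroup.eq.2 ?_⟩
  rw [Subgroup.mem_subgroupOf]
  change a⁻¹ * (y : G) ∈ H
  rw [← hab]
  simpa using hb

theorem card_sup_le {H S : Subgroup G} (h : H ≤ Subgroup.normalizer (S : Set G)) :
    Nat.card (S ⊔ H : Subgroup G) ≤ Nat.card S * Nat.card H := by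
  rw [← (H.subgroupOf (S ⊔ H)).index_mul_card,
    Nat.card_congr (Subgroup.subgroupOfEquivOfLe (le_sup_right : H ≤ S ⊔ H)).toEquiv]
  exact Nat.mul_le_mul_right _ (relIndex_sup_le h)

theorem Sec.sup {s : ℕ} {H S : Subgroup G} (h : H ≤ Subgroup.normalizer (S : Set G))
    (hS : Nat.card S ≤ s) (hH : Sec H s) : Sec (S ⊔ H : Subgroup G) s := by
  have hn : (S.subgroupOf (S ⊔ H)).Normal :=
    Subgroup.normal_subgroupOf_of_le_normalizer (sup_le Subgroup.le_normalizer h)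
  refine Sec.ext (S.subgroupOf (S ⊔ H)) (Sec.of_card ?_) ?_
  · rwa [Nat.card_congr (Subgroup.subgroupOfEquivOfLe (le_sup_left : S ≤ S ⊔ H)).toEquiv]
  · refine hH.of_surj ((QuotientGroup.mk' _).comp (Subgroup.inclusion le_sup_right)) ?_
    intro q
    obtain ⟨y, rfl⟩ := QuotientGroup.mk_surjective q
    have hy : (y : G) ∈ ((H ⊔ S : Subgroup G) : Set G) := by
      rw [sup_comm]
      exact y.2
    rw [Subgroup.coe_mul_of_left_le_normalizer_right H S h] at hy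
    obtain ⟨a, ha, b, hb, hab⟩ := hy
    refine ⟨⟨a, ha⟩, QuotientGroup.eq.2 ?_⟩
    rw [Subgroup.mem_subgroupOf]
    change a⁻¹ * (y : G) ∈ S
    rw [← hab]
    simpa using hb

theorem CF.sup_fin {T : Set (Subgroup G)} (h : CF T) {s : ℕ} (hs : ∀ S ∈ T, Nat.card S ≤ s)
    (T' : Set (Subgroup G)) (hT : T' ⊆ T) :
    Nat.card (sSup T' : Subgroup G) ≤ s ^ T'.ncard ∧ Sec (sSup T' : Subgroup G) s := by
  induction T', Set.toFinite T' using Set.Finite.induction_on with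
  | empty =>
    rw [sSup_empty]
    exact ⟨by simp, Sec.of_comm fun a b => Subsingleton.elim _ _⟩
  | @insert S T' hS hfin ih =>
    have hST : S ∈ T := hT (Set.mem_insert _ _)
    have hT' : T' ⊆ T := (Set.subset_insert _ _).trans hT
    obtain ⟨h1, h2⟩ := ih hT'
    have h3 : sSup T' ≤ Subgroup.normalizer (S : Set G) :=
      (sSup_le_sSup hT').trans (h.le_norm hST)
    rw [sSup_insert, Set.ncard_insert_of_notMem hS hfin, pow_succ, mul_comm]
    exact ⟨(card_sup_le h3).trans (Nat.mul_le_mul (hs S hST) h1), Sec.sup h3 (hs S hST) h2⟩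

theorem CF.cnt {T : Set (Subgroup G)} (h : CF T) {s : ℕ} {H H' : Subgroup G}
    (hi : H.relIndex H' ≤ s) :
    {S | S ∈ T ∧ S ≤ H' ∧ ¬S ≤ H}.ncard ≤ 2 ^ s.factorial := by
  let Q := H' ⧸ H.subgroupOf H'
  let φ : H' →* Equiv.Perm Q := MulAction.toPermHom H' Q
  let I : Subgroup G → Set (Equiv.Perm Q) := fun S =>
    {σ | ∃ x, ∃ hx : x ∈ H', x ∈ S ∧ φ ⟨x, hx⟩ = σ}
  have h1 : {S | S ∈ T ∧ S ≤ H' ∧ ¬S ≤ H}.ncard ≤ (Set.univ : Set (Set (Equiv.Perm Q))).ncard := by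
    refine Set.ncard_le_ncard_of_injOn I (fun _ _ => Set.mem_univ _) ?_ (Set.toFinite _)
    rintro S ⟨hS, hS1, hS2⟩ S' ⟨hS', hS1', -⟩ hI
    by_contra hne
    rcases (h.sn S hS).simple (S ⊓ φ.ker.map H'.subtype) inf_le_left (by
      rintro x hx y ⟨hy, z, hz, rfl⟩
      exact ⟨S.mul_mem (S.mul_mem hx hy) (S.inv_mem hx),
        ⟨x, hS1 hx⟩ * z * ⟨x, hS1 hx⟩⁻¹, (MonoidHom.normal_ker φ).conj_mem z hz _, rfl⟩) with e | e
    · obtain ⟨a, ha, b, hb, hab⟩ := (h.sn S hS).nc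
      have h2 : φ ⟨a, hS1 ha⟩ ∈ I S' := hI ▸ ⟨a, hS1 ha, ha, rfl⟩
      obtain ⟨a', ha1, ha2, ha3⟩ := h2
      have h3 : (⟨a', ha1⟩ : H') * ⟨b, hS1 hb⟩ = ⟨b, hS1 hb⟩ * ⟨a', ha1⟩ :=
        Subtype.ext (h.comm S hS S' hS' hne b hb a' ha2).symm
      have h4 : a * b * a⁻¹ * b⁻¹ ∈ S ⊓ φ.ker.map H'.subtype := by
        refine ⟨S.mul_mem (S.mul_mem (S.mul_mem ha hb) (S.inv_mem ha)) (S.inv_mem hb),
          ⟨a, hS1 ha⟩ * ⟨b, hS1 hb⟩ * ⟨a, hS1 ha⟩⁻¹ * ⟨b, hS1 hb⟩⁻¹, ?_, rfl⟩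
        change φ _ = 1
        rw [map_mul, map_mul, map_mul, map_inv, map_inv, ← ha3, ← map_mul, h3, map_mul]
        simp
      rw [e, Subgroup.mem_bot] at h4
      apply hab
      have e2 : a * b = (a * b * a⁻¹ * b⁻¹) * (b * a) := by group
      rw [e2, h4, one_mul]
    · apply hS2
      intro x hx
      rw [← e] at hx
      obtain ⟨-, z, hz, rfl⟩ := hx
      have h2 : z • ((1 : H') : Q) = ((1 : H') : Q) :=
        congrArg (fun σ : Equiv.Perm Q => σ ((1 : H') : Q)) hz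
      rw [smul_mk_perm2, mul_one, eq_comm, QuotientGroup.eq, Subgroup.mem_subgroupOf] at h2
      simpa using h2
  refine h1.trans ?_
  rw [Set.ncard_univ]
  have h2 : Nat.card (Set (Equiv.Perm Q)) = 2 ^ Nat.card (Equiv.Perm Q) := by
    change Nat.card (Equiv.Perm Q → Prop) = _
    rw [Nat.card_fun]
    simp
  rw [h2, Nat.card_perm]
  exact Nat.pow_le_pow_right (by norm_num) (Nat.factorial_le hi)

theorem CF.chain {T : Set (Subgroup G)} (h : CF T) {s : ℕ} (hs : ∀ S ∈ T, Nat.card S ≤ s)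
    (H : Subgroup G) (hH : H ≤ sSup T) :
    {S | S ∈ T ∧ ¬S ≤ H}.ncard ≤ 2 ^ s.factorial * Nat.log 2 (H.relIndex (sSup T)) := by
  induction hn : H.relIndex (sSup T) using Nat.strong_induction_on generalizing H with
  | _ n ih =>
    by_cases he : {S | S ∈ T ∧ ¬S ≤ H} = ∅
    · rw [he]
      simp
    · obtain ⟨S, hS, hSH⟩ := Set.nonempty_iff_ne_empty.2 he
      have h1 : S ⊔ H ≤ sSup T := sup_le (le_sSup hS) hH
      have h2 : H.relIndex (S ⊔ H) ≤ s :=
        (relIndex_sup_le (hH.trans (h.le_norm hS))).trans (hs S hS)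
      have h3 : H.relIndex (S ⊔ H) * (S ⊔ H).relIndex (sSup T) = n := by
        rw [Subgroup.relIndex_mul_relIndex H (S ⊔ H) (sSup T) le_sup_right h1, hn]
      have h4 : H.relIndex (S ⊔ H) ≠ 0 := Subgroup.index_ne_zero_of_finite
      have h5 : H.relIndex (S ⊔ H) ≠ 1 := fun e =>
        hSH (le_sup_left.trans (Subgroup.relIndex_eq_one.1 e))
      have h6 : (S ⊔ H).relIndex (sSup T) ≠ 0 := Subgroup.index_ne_zero_of_finite
      have h7 : (S ⊔ H).relIndex (sSup T) * 2 ≤ n := by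
        rw [← h3, mul_comm]
        exact Nat.mul_le_mul_right _ (by omega)
      have h8 := ih _ (by omega) (S ⊔ H) h1 rfl
      have h9 : Nat.log 2 ((S ⊔ H).relIndex (sSup T)) + 1 ≤ Nat.log 2 n := by
        rw [← Nat.log_mul_base (by norm_num) h6]
        exact Nat.log_mono_right h7
      have hsub : {S' | S' ∈ T ∧ ¬S' ≤ H} ⊆
          {S' | S' ∈ T ∧ ¬S' ≤ S ⊔ H} ∪ {S' | S' ∈ T ∧ S' ≤ S ⊔ H ∧ ¬S' ≤ H} := by
        rintro S' ⟨a, b⟩
        by_cases c : S' ≤ S ⊔ H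
        · exact Or.inr ⟨a, c, b⟩
        · exact Or.inl ⟨a, c⟩
      refine (Set.ncard_le_ncard hsub).trans ((Set.ncard_union_le _ _).trans ?_)
      refine (Nat.add_le_add h8 (h.cnt h2)).trans ?_
      rw [← Nat.mul_succ]
      exact Nat.mul_le_mul_left _ h9

/-- The bound for the order of a primitive group of degree `b`. -/
def tb (A b : ℕ) : ℕ := 2 ^ (A * (Nat.log 2 b + 1) ^ 2)

theorem card_le_prim {s : ℕ} (hG : Sec G s) {U : Subgroup G} (hU : IsCoatom U)
    (hc : U.normalCore = ⊥) :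
    Nat.card G ≤ tb ((s * 2 ^ s.factorial + 1) ^ 2 + 1) U.index := by
  have htop : (⊤ : Subgroup G) ≠ ⊥ := fun h => hU.1 (top_le_iff.1 (h ▸ bot_le))
  obtain ⟨A, hM, -⟩ := exists_minN (C := (⊤ : Subgroup G)) inferInstance htop
  have hA := hM.normal
  have hnle : ¬ A ≤ U := fun h => hM.ne (by
    have := (Subgroup.normal_le_normalCore (H := U) (N := A)).2 h
    rw [hc] at this
    exact le_bot_iff.1 this)
  have hsup : A ⊔ U = ⊤ := hU.2 _ (right_lt_sup.2 hnle)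
  have hdec : ∀ g : G, ∃ a ∈ A, ∃ u ∈ U, a * u = g := by
    intro g
    have hg : g ∈ ((A ⊔ U : Subgroup G) : Set G) := by rw [hsup]; trivial
    rw [Subgroup.normal_mul] at hg
    obtain ⟨a, ha, u, hu, e⟩ := hg
    exact ⟨a, ha, u, hu, e⟩
  set C := Subgroup.centralizer (A : Set G) with hC
  have hCn : C.Normal := inferInstance
  have hN : (C ⊓ U).Normal := by
    refine ⟨fun x hx g => ?_⟩
    obtain ⟨a, ha, u, hu, rfl⟩ := hdec g
    have h1 : u * x * u⁻¹ ∈ C := hCn.conj_mem x hx.1 u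
    have h2 : u * x * u⁻¹ ∈ U := U.mul_mem (U.mul_mem hu hx.2) (U.inv_mem hu)
    have h3 : a * (u * x * u⁻¹) = (u * x * u⁻¹) * a := Subgroup.mem_centralizer_iff.1 h1 a ha
    have h4 : a * u * x * (a * u)⁻¹ = u * x * u⁻¹ := by
      calc a * u * x * (a * u)⁻¹ = (a * (u * x * u⁻¹)) * a⁻¹ := by group
        _ = u * x * u⁻¹ := by rw [h3]; group
    rw [h4]
    exact ⟨h1, h2⟩
  have hbot : U ⊓ C = ⊥ := by
    have := (Subgroup.normal_le_normalCore (H := U) (N := C ⊓ U)).2 inf_le_right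
    rw [hc, inf_comm] at this
    exact le_bot_iff.1 this
  have hb0 : U.index ≠ 0 := Subgroup.index_ne_zero_of_finite
  have hrel : ∀ K : Subgroup G, U.relIndex K ≤ U.index := by
    intro K
    have h1 : U.relIndex K ≤ U.relIndex ⊤ :=
      Subgroup.relIndex_le_of_le_right le_top (by rwa [Subgroup.relIndex_top_right])
    rwa [Subgroup.relIndex_top_right] at h1
  have hCb : Nat.card C ≤ U.index := by
    have h1 := hrel C
    rwa [← Subgroup.inf_relIndex_right, hbot, Subgroup.relIndex_bot_left] at h1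
  obtain ⟨l, hl⟩ : ∃ l, l = Nat.log 2 U.index + 1 := ⟨_, rfl⟩
  have hbl : U.index ≤ 2 ^ l := by
    rw [hl]
    exact (Nat.lt_pow_succ_log_self (by norm_num) _).le
  obtain ⟨E, hE⟩ : ∃ E, E = s * 2 ^ s.factorial + 1 := ⟨_, rfl⟩
  have hAb : Nat.card A ≤ 2 ^ (E * l) := by
    by_cases hnc : ∃ a ∈ A, ∃ b ∈ A, a * b ≠ b * a
    · obtain ⟨T, hT, -, hTA, htr⟩ := exists_CF hM hnc
      have hs : ∀ S ∈ T, Nat.card S ≤ s := fun S hS => (hT.sn S hS).card_le hG
      have h1 : {S | S ∈ T ∧ ¬S ≤ U ⊓ A} = T := by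
        refine Set.eq_of_subset_of_subset (fun S hS => hS.1) fun S hS => ⟨hS, fun hle => hnle ?_⟩
        rw [← hTA]
        refine sSup_le fun S' hS' => ?_
        obtain ⟨g, rfl⟩ := htr S hS S' hS'
        obtain ⟨a, ha, u, hu, rfl⟩ := hdec g
        rw [cj_mul, cj_eq_iff.2 (hT.le_norm (hT.cj u S hS) (hTA ▸ ha))]
        intro x hx
        have h2 : u⁻¹ * x * u ∈ U := (hle hx).1
        rwa [U.mul_mem_cancel_right hu, U.mul_mem_cancel_left (U.inv_mem hu)] at h2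
      have h2 := hT.chain hs (U ⊓ A) (hTA ▸ inf_le_right)
      rw [h1, hTA, Subgroup.inf_relIndex_right] at h2
      have h3 : T.ncard ≤ 2 ^ s.factorial * l := by
        refine h2.trans (Nat.mul_le_mul_left _ ?_)
        rw [hl]
        exact (Nat.log_mono_right (hrel A)).trans (Nat.le_succ _)
      have h4 := (hT.sup_fin hs T subset_rfl).1
      rw [hTA] at h4
      calc Nat.card A ≤ s ^ T.ncard := h4
        _ ≤ (2 ^ s) ^ T.ncard := Nat.pow_le_pow_left (le_two_pow_Num s) _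
        _ = 2 ^ (s * T.ncard) := by rw [← pow_mul]
        _ ≤ 2 ^ (E * l) := by
          refine Nat.pow_le_pow_right (by norm_num) ((Nat.mul_le_mul_left _ h3).trans ?_)
          rw [← mul_assoc, hE]
          exact Nat.mul_le_mul_right _ (Nat.le_succ _)
    · push Not at hnc
      have hAC : A ≤ C := fun x hx => Subgroup.mem_centralizer_iff.2 fun y hy => hnc y hy x hx
      refine ((Subgroup.card_le_of_le hAC).trans hCb).trans (hbl.trans ?_)
      exact Nat.pow_le_pow_right (by norm_num) (Nat.le_mul_of_pos_left _ (by omega))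
  have h1 := index_centralizer_le A
  have h2 : Nat.card A ^ Nat.log 2 (Nat.card A) ≤ (2 ^ (E * l)) ^ (E * l) :=
    (Nat.pow_le_pow_left hAb _).trans
      (Nat.pow_le_pow_right (by positivity) (log_le_Num _ _ hAb))
  rw [← C.index_mul_card, tb, ← hE, ← hl]
  refine (Nat.mul_le_mul (h1.trans h2) (hCb.trans hbl)).trans ?_
  rw [← pow_mul, ← pow_add]
  refine Nat.pow_le_pow_right (by norm_num) ?_
  have : l ≤ l ^ 2 := by nlinarith
  nlinarith

end Pool.Agent.Lib.MP_98dfd6_al.AS
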