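import Pool.Agent.Lib.MP_98dfd6_al.AS.Deg
import Pool.Agent.Lib.MP_98dfd6_al.AS.Prim

/-! Induction from the normaliser of a component. -/

namespace Pool.Agent.Lib.MP_98dfd6_al.AS

variable {k G A : Type} [Field k] [Group G] [Group A] {T : Set (Subgroup G)} {S : Subgroup G}

/-- `f` is the map from the normaliser of `S` onto the group of induced automorphisms. -/
structure Aut (S : Subgroup G) (f : Subgroup.normalizer (S : Set G) →* A) : Prop where
  surj : Function.Surjective f
  ker : ∀ h, f h = 1 ↔ (h : G) ∈ Subgroup.centralizer (S : Set G)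

variable {f : Subgroup.normalizer (S : Set G) →* A}

theorem Aut.inj (hf : Aut S f) (hS : SN S) :
    Function.Injective (f.comp (Subgroup.inclusion Subgroup.le_normalizer)) := by
  rw [injective_iff_map_eq_one]
  intro x hx
  exact Subtype.ext (hS.centre x.2 (Subgroup.mem_centralizer_iff.1 ((hf.ker _).1 hx)))

theorem Aut.conj (h : Subgroup.normalizer (S : Set G)) (x : S) :
    ∃ y : S, (y : G) = h * x * (h : G)⁻¹ ∧ f.comp (Subgroup.inclusion Subgroup.le_normalizer) y =
      f h * f.comp (Subgroup.inclusion Subgroup.le_normalizer) x * (f h)⁻¹ := by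
  refine ⟨⟨h * x * (h : G)⁻¹, (Subgroup.mem_normalizer_iff.1 h.2 x).1 x.2⟩, rfl, ?_⟩
  rw [MonoidHom.comp_apply, MonoidHom.comp_apply, ← map_inv, ← map_mul, ← map_mul]
  rfl

theorem Aut.almost (hf : Aut S f) (hS : SN S) : AlmostSimple A := by
  have hj := hf.inj hS
  have := hS.isSimple
  refine ⟨(f.comp (Subgroup.inclusion Subgroup.le_normalizer)).range, ⟨?_⟩,
    (MonoidHom.ofInjective hj).symm.isSimpleGroup, ?_, ?_⟩
  · rintro _ ⟨x, rfl⟩ a
    obtain ⟨h, rfl⟩ := hf.surj a
    obtain ⟨y, -, hy⟩ := Aut.conj (f := f) h x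
    exact ⟨y, hy⟩
  · obtain ⟨a, b, hab⟩ := hS.nc'
    refine ⟨MonoidHom.ofInjective hj a, MonoidHom.ofInjective hj b, fun e => hab ?_⟩
    rw [← map_mul, ← map_mul] at e
    exact (MonoidHom.ofInjective hj).injective e
  · rw [eq_bot_iff]
    intro a ha
    obtain ⟨h, rfl⟩ := hf.surj a
    refine (hf.ker h).2 (Subgroup.mem_centralizer_iff.2 fun x hx => ?_)
    obtain ⟨y, hy1, hy2⟩ := Aut.conj (f := f) h ⟨x, hx⟩
    rw [← Subgroup.mem_centralizer_iff.1 ha _ ⟨⟨x, hx⟩, rfl⟩, mul_inv_cancel_right] at hy2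
    rw [hj hy2] at hy1
    exact eq_mul_inv_iff_mul_eq.1 hy1

theorem Aut.span (hf : Aut S f) (hS : SN S) {W : Type} [AddCommGroup W] [Module k W]
    (θ : Representation k A W) (hθ : θ.IsIrreducible) (hi : Function.Injective θ)
    (U : Submodule k W)
    (hU : ∀ (x : S) (w : W),
      θ (f.comp (Subgroup.inclusion Subgroup.le_normalizer) x) w - w ∈ U) : U = ⊤ := by
  let Z : Set W := {z | ∃ (x : S) (w : W),
    θ (f.comp (Subgroup.inclusion Subgroup.le_normalizer) x) w - w = z}
  have hle : Submodule.span k Z ≤ U := Submodule.span_le.2 (by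
    rintro _ ⟨x, w, rfl⟩
    exact hU x w)
  rcases inv_cases_Rep3 θ hθ (Submodule.span k Z) (fun a => by
    obtain ⟨h, rfl⟩ := hf.surj a
    have h1 : Submodule.span k Z ≤ (Submodule.span k Z).comap (θ (f h)) :=
      Submodule.span_le.2 (by
        rintro _ ⟨x, w, rfl⟩
        obtain ⟨y, -, hy⟩ := Aut.conj (f := f) h x
        refine Submodule.subset_span ⟨y, θ (f h) w, ?_⟩
        rw [hy, map_sub, rep_mul, rep_mul, inv_mul_cancel_right])
    exact fun w hw => h1 hw) with h0 | h0
  · exfalso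
    obtain ⟨a, b, hab⟩ := hS.nc'
    have h1 : a = 1 := by
      apply hf.inj hS
      apply hi
      rw [map_one, map_one]
      refine LinearMap.ext fun w => ?_
      have h2 : θ (f.comp (Subgroup.inclusion Subgroup.le_normalizer) a) w - w ∈
        Submodule.span k Z := Submodule.subset_span ⟨a, w, rfl⟩
      rw [h0, Submodule.mem_bot] at h2
      exact sub_eq_zero.1 h2
    rw [h1] at hab
    simp at hab
  · exact top_le_iff.1 (h0 ▸ hle)

theorem Aut.triv (hf : Aut S f) (hT : CF T) (hS : S ∈ T) {V W : Type} [AddCommGroup V]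
    [Module k V] [AddCommGroup W] [Module k W] (ρ : Representation k G V)
    (θ : Representation k A W) (φ : V →ₗ[k] W)
    (h : ∀ (u : Subgroup.normalizer (S : Set G)) (v), φ (ρ u v) = θ (f u) (φ v)) {g : G}
    (hg : g ∉ Subgroup.normalizer (S : Set G)) (x : S) (v : V) :
    φ (ρ g (ρ x v)) = φ (ρ g v) := by
  have h1 : g * x * g⁻¹ ∈ Subgroup.centralizer (S : Set G) :=
    Subgroup.mem_centralizer_iff.2 fun z hz => hT.comm S hS _ (hT.cj g S hS)
      (fun e => hg (cj_eq_iff.1 e.symm)) z hz _ (conj_mem_cj.2 x.2)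
  have h2 := h ⟨_, Subgroup.centralizer_le_normalizer _ h1⟩ (ρ g v)
  rw [(hf.ker _).2 h1, map_one, Module.End.one_apply] at h2
  rw [← h2, rep_mul, rep_mul, inv_mul_cancel_right]

variable [Finite G]

theorem Aut.ind (hf : Aut S f) (hT : CF T) (hS : S ∈ T) {d : ℕ}
    (θ : Representation k A (Fin d → k)) (hθ : θ.IsIrreducible) (hi : Function.Injective θ) :
    ∃ (ρ : Representation k G (Fin ((Subgroup.normalizer (S : Set G)).index * d) → k))
      (φ : (Fin ((Subgroup.normalizer (S : Set G)).index * d) → k) →ₗ[k] (Fin d → k)),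
      ρ.IsIrreducible ∧ φ ≠ 0 ∧
        ∀ (u : Subgroup.normalizer (S : Set G)) (v), φ (ρ u v) = θ (f u) (φ v) := by
  classical
  have := nontrivial_Rep3 θ hθ
  obtain ⟨e, ρ, φ, h1, h2, h3, h4⟩ := exists_simple (Subgroup.normalizer (S : Set G)) (θ.comp f)
  have h5 : ∀ (u : Subgroup.normalizer (S : Set G)) (v), φ (ρ u v) = θ (f u) (φ v) := h4
  rw [Module.finrank_fin_fun] at h2
  have hsurj : Function.Surjective φ := by
    rcases inv_cases_Rep3 θ hθ (LinearMap.range φ) (by
      rintro a _ ⟨v, rfl⟩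
      obtain ⟨u, rfl⟩ := hf.surj a
      exact ⟨_, h5 u v⟩) with h0 | h0
    · exact absurd (LinearMap.range_eq_bot.1 h0) h3
    · exact LinearMap.range_eq_top.1 h0
  have : Fintype (G ⧸ Subgroup.normalizer (S : Set G)) := Fintype.ofFinite _
  let Φ := LinearMap.pi fun q : G ⧸ Subgroup.normalizer (S : Set G) => φ ∘ₗ ρ (q.out)⁻¹
  have hq : ∀ q w, Pi.single q w ∈ LinearMap.range Φ := by
    intro q w
    have h6 := hf.span (hT.sn S hS) θ hθ hi
      ((LinearMap.range Φ).comap (LinearMap.single k (fun _ => Fin d → k) q)) (by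
        intro x w
        obtain ⟨v, rfl⟩ := hsurj w
        refine ⟨ρ q.out (ρ x v - v), funext fun q' => ?_⟩
        change φ (ρ (q'.out)⁻¹ (ρ q.out (ρ x v - v))) = Pi.single (M := fun _ => Fin d → k) q _ q'
        rw [rep_mul]
        by_cases hqq : q' = q
        · rw [hqq, Pi.single_eq_same, inv_mul_cancel, map_one, Module.End.one_apply, map_sub]
          exact congrArg (· - φ v) (h5 (Subgroup.inclusion Subgroup.le_normalizer x) v)
        · rw [Pi.single_eq_of_ne hqq, map_sub, map_sub, hf.triv hT hS ρ θ φ h5, sub_self]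
          intro hm
          apply hqq
          rw [← q.out_eq, ← q'.out_eq]
          exact Quotient.sound (QuotientGroup.leftRel_apply.2 hm))
    have h7 : w ∈ (LinearMap.range Φ).comap (LinearMap.single k (fun _ => Fin d → k) q) :=
      h6 ▸ Submodule.mem_top
    exact h7
  have hΦ : Function.Surjective Φ := by
    intro w
    rw [← Finset.univ_sum_single w]
    exact (LinearMap.range Φ).sum_mem fun q _ => hq q _
  have h6 := LinearMap.finrank_le_finrank_of_surjective hΦ
  rw [Module.finrank_pi_fintype, Module.finrank_fin_fun, Module.finrank_fin_fun, Finset.sum_const,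
    Finset.card_univ, smul_eq_mul, ← Nat.card_eq_fintype_card] at h6
  obtain rfl : e = (Subgroup.normalizer (S : Set G)).index * d := le_antisymm h2 h6
  exact ⟨ρ, φ, h1, h3, h5⟩

theorem Aut.faith (hf : Aut S f) (hT : CF T) (hS : S ∈ T) {m : ℕ} (hB : BrLe k G m) :
    FaithLe k A m := by
  intro d n θ hθ hi hne
  choose ρ φ h1 h2 h3 using fun i => hf.ind hT hS (θ i) (hθ i) (hi i)
  refine hB _ n ρ h1 fun i j ⟨E⟩ => ?_
  by_contra hij
  have key := surj_Rep3 (G := Subgroup.normalizer (S : Set G)) ((ρ i).comp (Subgroup.subtype _))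
    (fun b : Bool => (θ (cond b i j)).comp f) (fun b => irr_comp _ (hθ _) f hf.surj) (by
      rintro a b ⟨e⟩
      have h4 := hne _ _ ⟨Representation.Equiv.mk e.toLinearEquiv fun g => by
        obtain ⟨x, rfl⟩ := hf.surj g
        exact e.isIntertwining' x⟩
      cases a <;> cases b
      · rfl
      · exact absurd h4.symm hij
      · exact absurd h4 hij
      · rfl) (fun b => cond b (φ i) (φ j ∘ₗ E.toLinearMap)) (by
      rintro (_ | _)
      · intro h0
        apply h2 j
        refine LinearMap.ext fun v => ?_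
        obtain ⟨u, rfl⟩ := E.toLinearEquiv.surjective v
        exact LinearMap.congr_fun h0 u
      · exact h2 i) (by
      rintro (_ | _) u v
      · change φ j (E.toLinearMap (ρ i u v)) = θ j (f u) (φ j (E.toLinearMap v))
        rw [equiv_apply_rep2, h3]
      · exact h3 i u v) Finset.univ
  have := nontrivial_Rep3 (θ j) (hθ j)
  refine bot_ne_top (hf.span (hT.sn S hS) (θ j) (hθ j) (hi j) ⊥ fun x w => ?_)
  obtain ⟨v, hv⟩ := key fun b => cond b 0 w
  have hv1 : φ i v = 0 := hv true (Finset.mem_univ _)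
  have hv2 : φ j (E.toLinearMap v) = w := hv false (Finset.mem_univ _)
  have h4 : ρ i x v - v = 0 := by
    refine irr_sep (ρ i) (h1 i) (h2 i) fun g => ?_
    by_cases hg : g ∈ Subgroup.normalizer (S : Set G)
    · have h5 := h3 i (Subgroup.inclusion Subgroup.le_normalizer x) v
      rw [hv1, map_zero] at h5
      rw [h3 i ⟨g, hg⟩, map_sub, hv1]
      change θ i _ (φ i (ρ i (Subgroup.inclusion Subgroup.le_normalizer x) v) - 0) = 0
      rw [h5, sub_zero, map_zero]
    · rw [map_sub, map_sub, hf.triv hT hS (ρ i) (θ i) (φ i) (h3 i) hg, sub_self]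
  rw [Submodule.mem_bot, ← hv2, sub_eq_zero]
  conv_rhs => rw [← sub_eq_zero.1 h4, equiv_apply_rep2]
  exact (h3 j (Subgroup.inclusion Subgroup.le_normalizer x) _).symm

theorem CF.card_le (hT : CF T) (hS : S ∈ T) {m s : ℕ} (hB : BrLe k G m) (hs : SecLe k G m s) :
    Nat.card S ≤ s := by
  have hf : Aut S (QuotientGroup.mk' S.normalizerMonoidHom.ker) :=
    ⟨QuotientGroup.mk'_surjective _, fun h => by
      rw [← MonoidHom.mem_ker, QuotientGroup.ker_mk', Subgroup.normalizerMonoidHom_ker,
        Subgroup.mem_subgroupOf]⟩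
  exact (Nat.card_le_card_of_injective _ (hf.inj (hT.sn S hS))).trans
    (hs _ _ _ hf.surj (hf.almost (hT.sn S hS)) (hf.faith hT hS hB))

omit [Finite G] in
theorem secLe_surj {m s : ℕ} (h : SecLe k G m s) (π : G →* A) (hπ : Function.Surjective π) :
    SecLe k A m s :=
  fun H B _ f hf => h (H.comap π) B (f.comp (π.subgroupComap H))
    (hf.comp (π.subgroupComap_surjective_of_surjective H hπ))

theorem sec_of (k : Type) [Field k] (m s n : ℕ) : ∀ (G : Type) [Group G] [Finite G],
    Nat.card G = n → BrLe k G m → SecLe k G m s → Sec G s := by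
  induction n using Nat.strong_induction_on with
  | _ n ih =>
    intro G _ _ hn hB hs
    by_cases h0 : (⊤ : Subgroup G) = ⊥
    · refine Sec.of_comm fun a b => ?_
      have : a ∈ (⊥ : Subgroup G) := h0 ▸ Subgroup.mem_top a
      rw [Subgroup.mem_bot.1 this, one_mul, mul_one]
    · obtain ⟨M, hM, -⟩ := exists_minN (C := (⊤ : Subgroup G)) inferInstance h0
      have := hM.normal
      have hπ := QuotientGroup.mk'_surjective M
      refine Sec.ext M ?_ (ih _ ?_ _ rfl (hB.of_surj _ hπ) (secLe_surj hs _ hπ))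
      · by_cases hnc : ∃ a ∈ M, ∃ b ∈ M, a * b ≠ b * a
        · obtain ⟨T, hT, -, rfl, -⟩ := exists_CF hM hnc
          exact (hT.sup_fin (fun S hS => hT.card_le hS hB hs) T le_rfl).2
        · push Not at hnc
          exact Sec.of_comm fun a b => Subtype.ext (hnc a a.2 b b.2)
      · have h1 := M.index_mul_card
        have h2 : 1 < Nat.card M := (Subgroup.one_lt_card_iff_ne_bot M).2 hM.ne
        have h3 : M.index ≠ 0 := Subgroup.index_ne_zero_of_finite
        change M.index < n
        rw [← hn, ← h1]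
        exact lt_mul_of_one_lt_right (Nat.pos_of_ne_zero h3) h2

end Pool.Agent.Lib.MP_98dfd6_al.AS
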