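import Pool.Agent.Lib.MP_98dfd6_al.AS.Perm

/-! The intransitive case: kernel of the action and orbits on subsets. -/

namespace Pool.Agent.Lib.MP_98dfd6_al.AS

open MulAction

open Pointwise

theorem intr {A C : ℕ} (hC : ∀ b, 2 ≤ b → tb A b ≤ C ^ (b - 1)) (hC1 : 1 ≤ C) :
    ∃ B, ∀ (G : Type) [Group G] [Finite G], PB G A → ∀ (Ω : Type) [MulAction G Ω] [Finite Ω]
      (T : Set Ω), (∀ g : G, ∀ x ∈ T, g • x ∈ T) →
      (∃ K : Subgroup G, K.index ≤ C ^ T.ncard ∧ ∀ g ∈ K, ∀ x ∈ T, g • x = x) ∧
      ∃ (ι : Type) (_ : Finite ι) (D : ι → Set Ω), (∀ i, D i ⊆ T) ∧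
        (∀ i j, ∀ g : G, (∀ x, x ∈ D i ↔ g • x ∈ D j) → i = j) ∧
        2 ^ T.ncard ≤ Nat.card ι ^ B := by
  obtain ⟨B, hB⟩ := fam_exp' hC hC1
  refine ⟨B, fun G _ _ hG Ω _ _ T => ?_⟩
  induction hn : T.ncard using Nat.strong_induction_on generalizing T with
  | _ n ih =>
    intro hT
    rcases T.eq_empty_or_nonempty with rfl | ⟨ω, hω⟩
    · rw [Set.ncard_empty] at hn
      subst hn
      exact ⟨⟨⊤, by simp, fun _ _ _ hx => absurd hx (Set.notMem_empty _)⟩, Unit, inferInstance,
        fun _ => ∅, fun _ => le_rfl, fun _ _ _ _ => rfl, by simp⟩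
    · let O := orbit G ω
      have hOT : O ⊆ T := by
        rintro _ ⟨g, rfl⟩
        exact hT g ω hω
      have hO : ∀ (g : G) (x : Ω), g • x ∈ O ↔ x ∈ O := by
        intro g x
        constructor
        · rintro ⟨a, ha⟩
          exact ⟨g⁻¹ * a, by simp only [mul_smul]; rw [show a • ω = g • x from ha, inv_smul_smul]⟩
        · rintro ⟨a, rfl⟩
          exact ⟨g * a, mul_smul g a ω⟩
      have hcard : (T \ O).ncard + O.ncard = n := by
        rw [Set.ncard_sdiff_add_ncard_of_subset hOT, hn]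
      have hidx : (stabilizer G ω).index = O.ncard := index_stabilizer G ω
      have hpos : O.ncard ≠ 0 := hidx ▸ Subgroup.index_ne_zero_of_finite
      obtain ⟨⟨K, hK1, hK2⟩, ι, _, D, hD1, hD2, hD3⟩ := ih (T \ O).ncard (by omega) (T \ O) rfl
        fun g x hx => ⟨hT g x hx.1, fun h => hx.2 ((hO g x).1 h)⟩
      refine ⟨⟨K ⊓ (stabilizer G ω).normalCore, ?_, ?_⟩, ?_⟩
      · refine Subgroup.index_inf_le.trans ?_
        rw [← hcard, pow_add]
        refine Nat.mul_le_mul hK1 ((core_le hG hC hC1 _).trans ?_)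
        rw [hidx]
        exact Nat.pow_le_pow_right hC1 (Nat.sub_le _ _)
      · intro g hg x hx
        by_cases h : x ∈ O
        · obtain ⟨a, rfl⟩ := h
          have h1 : (a⁻¹ * g * a⁻¹⁻¹) • ω = ω := hg.2 a⁻¹
          show g • a • ω = a • ω
          conv_rhs => rw [← h1]
          simp [mul_smul]
        · exact hK2 g hg.1 x ⟨hx, h⟩
      · obtain ⟨s, hs, hle⟩ := hB G hG (stabilizer G ω)
        obtain ⟨S, hS⟩ := hs.sets
        let e := ofQuotientStabilizer G ω
        have he : Function.Injective e := injective_ofQuotientStabilizer G ω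
        have heO : ∀ q, e q ∈ O := ofQuotientStabilizer_mem_orbit G ω
        refine ⟨Fin s × ι, inferInstance, fun i => e '' S i.1 ∪ D i.2, ?_, ?_, ?_⟩
        · rintro i x (⟨q, -, rfl⟩ | hx)
          · exact hOT (heO q)
          · exact (hD1 _ hx).1
        · rintro ⟨i, a⟩ ⟨j, b⟩ g h
          have k1 : ∀ (l : Fin s) (c : ι) q, e q ∈ e '' S l ∪ D c ↔ q ∈ S l := by
            intro l c q
            constructor
            · rintro (h1 | h1)
              · exact he.mem_set_image.1 h1
              · exact absurd (heO q) (hD1 _ h1).2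
            · exact fun h1 => Or.inl ⟨q, h1, rfl⟩
          have k2 : ∀ (l : Fin s) (c : ι) x, x ∈ D c ↔ x ∈ e '' S l ∪ D c ∧ x ∉ O := by
            intro l c x
            constructor
            · exact fun h1 => ⟨Or.inr h1, (hD1 _ h1).2⟩
            · rintro ⟨⟨q, -, rfl⟩ | h1, h2⟩
              · exact absurd (heO q) h2
              · exact h1
          refine Prod.ext (hS i j g ?_) (hD2 a b g fun x => ?_)
          · ext q
            rw [Set.mem_smul_set_iff_inv_smul_mem, ← k1 i a, ← k1 j b, h]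
            have : g • e (g⁻¹ • q) = e q := by
              rw [← ofQuotientStabilizer_smul, smul_inv_smul]
            rw [this]
          · rw [k2 i a, k2 j b, h, hO]
        · rw [Nat.card_prod, Nat.card_fin, mul_pow, ← hcard, pow_add, mul_comm, ← hidx]
          exact Nat.mul_le_mul hle hD3

end Pool.Agent.Lib.MP_98dfd6_al.AS
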