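import Pool.Agent.Lib.MP_98dfd6_al.AS.Prim

/-! Permutation groups with small non-abelian simple sections: order and orbits on subsets. -/

namespace Pool.Agent.Lib.MP_98dfd6_al.AS

open MulAction

open Pointwise

variable {G : Type} [Group G] [Finite G]

theorem num_C (A : ℕ) : ∃ C, 1 ≤ C ∧ ∀ b, 2 ≤ b → tb A b ≤ C ^ (b - 1) := by
  obtain ⟨K, hK⟩ := two_pow_log_sq_le A
  refine ⟨2 * (K + 1) * 2, by omega, fun b hb => (hK b).trans ?_⟩
  obtain ⟨c, rfl⟩ : ∃ c, b = c + 2 := ⟨b - 2, by omega⟩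
  have h1 : 2 * (K + 1) ≤ (2 * (K + 1)) ^ (c + 1) := Nat.le_self_pow (by omega) _
  have h2 : c + 2 - 1 = c + 1 := by omega
  rw [h2, mul_pow]
  calc K * 2 ^ (c + 2) = 2 * K * 2 ^ (c + 1) := by ring
    _ ≤ _ := Nat.mul_le_mul_right _ (le_trans (by omega) h1)

theorem num_b (A C : ℕ) : ∃ b₀, ∀ b, b₀ < b → C ^ 2 * tb A b ^ 2 ≤ 2 ^ b := by
  obtain ⟨n₀, h₀⟩ := le_of_le_log_sq (2 * C + 2 * A)
  refine ⟨n₀, fun b hb => ?_⟩
  have h1 : (2 * C + 2 * A) * (Nat.log 2 b + 1) ^ 2 < b := by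
    by_contra h
    have := h₀ b (by omega)
    omega
  have h2 : 1 ≤ (Nat.log 2 b + 1) ^ 2 := Nat.one_le_pow _ _ (by omega)
  calc C ^ 2 * tb A b ^ 2 ≤ (2 ^ C) ^ 2 * tb A b ^ 2 :=
        Nat.mul_le_mul_right _ (Nat.pow_le_pow_left (le_two_pow_Num C) 2)
    _ = 2 ^ (C * 2 + A * (Nat.log 2 b + 1) ^ 2 * 2) := by
        rw [tb, ← pow_mul, ← pow_mul, ← pow_add]
    _ ≤ 2 ^ b := Nat.pow_le_pow_right (by norm_num) (by nlinarith)

/-- All primitive sections are small. -/
def PB (G : Type) [Group G] (A : ℕ) : Prop :=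
  ∀ U V : Subgroup G, U ⋖ V → ∃ c : Subgroup G, c ≤ U ∧ (∀ v ∈ V, ∀ x ∈ c, v * x * v⁻¹ ∈ c) ∧
    c.relIndex V ≤ tb A (U.relIndex V)

theorem core_prim {s : ℕ} (hG : Sec G s) {U : Subgroup G} (hU : IsCoatom U) :
    U.normalCore.index ≤ tb ((s * 2 ^ s.factorial + 1) ^ 2 + 1) U.index := by
  let f := QuotientGroup.mk' U.normalCore
  have hf : Function.Surjective f := QuotientGroup.mk'_surjective _
  have hker : f.ker = U.normalCore := QuotientGroup.ker_mk' _
  have hcm : (U.map f).comap f = U := by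
    rw [Subgroup.comap_map_eq, hker]
    exact sup_eq_left.2 U.normalCore_le
  have hco : IsCoatom (U.map f) := by
    refine ⟨fun h => hU.1 ?_, fun W hW => ?_⟩
    · rw [← hcm, h, Subgroup.comap_top]
    · have h1 : U < W.comap f :=
        lt_of_eq_of_lt hcm.symm ((Subgroup.comap_lt_comap_of_surjective hf).2 hW)
      rw [← Subgroup.map_comap_eq_self_of_surjective hf W, hU.2 _ h1,
        Subgroup.map_top_of_surjective f hf]
  have hcore : (U.map f).normalCore = ⊥ := by
    have h1 : ((U.map f).normalCore.comap f) ≤ U := by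
      conv_rhs => rw [← hcm]
      exact Subgroup.comap_mono (Subgroup.normalCore_le _)
    have h2 := (Subgroup.normal_le_normalCore (H := U)
      (N := (U.map f).normalCore.comap f)).2 h1
    rw [← Subgroup.map_comap_eq_self_of_surjective hf (U.map f).normalCore,
      Subgroup.map_eq_bot_iff, hker]
    exact h2
  have hi : (U.map f).index = U.index := by
    conv_rhs => rw [← hcm]
    exact (Subgroup.index_comap_of_surjective _ hf).symm
  have h := card_le_prim (hG.of_surj f hf) hco hcore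
  rw [hi] at h
  exact h

theorem Sec.pb {s : ℕ} (hG : Sec G s) : PB G ((s * 2 ^ s.factorial + 1) ^ 2 + 1) := by
  intro U V h
  have hinj : Function.Injective V.subtype := V.subtype_injective
  have hmap : (U.subgroupOf V).map V.subtype = U := by
    rw [Subgroup.subgroupOf_map_subtype]
    exact inf_eq_left.2 h.le
  have hco : IsCoatom (U.subgroupOf V) := by
    refine ⟨fun h1 => h.lt.not_ge (Subgroup.subgroupOf_eq_top.1 h1), fun W hW => ?_⟩
    have h1 : U < W.map V.subtype := by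
      conv_lhs => rw [← hmap]
      exact (Subgroup.map_lt_map_iff_of_injective hinj).2 hW
    have h2 : W.map V.subtype = V := by
      rcases (Subgroup.map_subtype_le W).lt_or_eq with h3 | h3
      · exact absurd h3 (h.2 h1)
      · exact h3
    apply Subgroup.map_injective hinj
    rw [h2, ← MonoidHom.range_eq_map, Subgroup.range_subtype]
  refine ⟨(U.subgroupOf V).normalCore.map V.subtype, ?_, ?_, ?_⟩
  · conv_rhs => rw [← hmap]
    exact Subgroup.map_mono (Subgroup.normalCore_le _)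
  · rintro v hv x ⟨y, hy, rfl⟩
    exact ⟨⟨v, hv⟩ * y * ⟨v, hv⟩⁻¹, (Subgroup.normalCore_normal _).conj_mem y hy _, rfl⟩
  · have h1 : (((U.subgroupOf V).normalCore.map V.subtype).subgroupOf V) =
        (U.subgroupOf V).normalCore := Subgroup.comap_map_eq_self_of_injective hinj _
    unfold Subgroup.relIndex
    rw [h1]
    exact core_prim (hG.subgroup V) hco

variable {A C : ℕ}

theorem core_step (hG : PB G A) (hC : ∀ b, 2 ≤ b → tb A b ≤ C ^ (b - 1)) {U V : Subgroup G}
    (h : U ⋖ V) :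
    U.normalCore.index ≤ V.normalCore.index * (C ^ (U.relIndex V - 1)) ^ V.index := by
  classical
  obtain ⟨c, hcU, hcV, hci⟩ := hG U V h
  have hb0 : U.relIndex V ≠ 0 := Subgroup.index_ne_zero_of_finite
  have hb1 : U.relIndex V ≠ 1 := fun h1 => h.lt.not_ge (Subgroup.relIndex_eq_one.1 h1)
  have hci' : c.relIndex V ≤ C ^ (U.relIndex V - 1) := hci.trans (hC _ (by omega))
  let d : G ⧸ V → Subgroup G := fun q => c.comap (MulAut.conj (q.out)⁻¹).toMonoidHom
  have hle : (⨅ q, d q) ≤ U.normalCore := by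
    intro x hx g
    obtain ⟨v, hv⟩ := QuotientGroup.mk_out_eq_mul V g⁻¹
    have h1 : x ∈ d (QuotientGroup.mk g⁻¹) := Subgroup.mem_iInf.1 hx _
    have h2 : ((QuotientGroup.mk g⁻¹ : G ⧸ V).out)⁻¹ * x *
        ((QuotientGroup.mk g⁻¹ : G ⧸ V).out)⁻¹⁻¹ ∈ c := h1
    rw [hv] at h2
    have h3 := hcV v v.2 _ h2
    have h4 : (v : G) * ((g⁻¹ * v)⁻¹ * x * (g⁻¹ * v)⁻¹⁻¹) * (v : G)⁻¹ = g * x * g⁻¹ := by group
    rw [h4] at h3
    exact hcU h3
  have hd : ∀ q, (d q).relIndex V.normalCore ≤ C ^ (U.relIndex V - 1) := by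
    intro q
    have h1 : V.normalCore.map (MulAut.conj (q.out)⁻¹).toMonoidHom ≤ V := by
      rintro _ ⟨y, hy, rfl⟩
      exact V.normalCore_le ((Subgroup.normalCore_normal V).conj_mem y hy _)
    have h2 : (d q).relIndex V.normalCore =
        c.relIndex (V.normalCore.map (MulAut.conj (q.out)⁻¹).toMonoidHom) :=
      Subgroup.relIndex_comap _ _ _
    rw [h2]
    exact (Subgroup.relIndex_le_of_le_right h1 Subgroup.index_ne_zero_of_finite).trans hci'
  have : Fintype (G ⧸ V) := Fintype.ofFinite _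
  have h1 : (⨅ q, d q).relIndex V.normalCore ≤ (C ^ (U.relIndex V - 1)) ^ V.index := by
    refine (Subgroup.relIndex_iInf_le d).trans ?_
    refine (Finset.prod_le_pow_card _ _ _ (fun q _ => hd q)).trans ?_
    rw [Finset.card_univ, Subgroup.index, Nat.card_eq_fintype_card]
  have h2 : U.normalCore.relIndex V.normalCore ≤ (⨅ q, d q).relIndex V.normalCore :=
    Subgroup.relIndex_le_of_le_left hle Subgroup.index_ne_zero_of_finite
  rw [← Subgroup.relIndex_mul_index (Subgroup.normalCore_mono h.le), mul_comm]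
  exact Nat.mul_le_mul_left _ (h2.trans h1)

theorem core_le (hG : PB G A) (hC : ∀ b, 2 ≤ b → tb A b ≤ C ^ (b - 1)) (hC1 : 1 ≤ C)
    (U : Subgroup G) :
    U.normalCore.index ≤ C ^ (U.index - 1) := by
  induction hn : U.index using Nat.strong_induction_on generalizing U with
  | _ n ih =>
    by_cases hU : U = ⊤
    · subst hU
      have h1 : (⊤ : Subgroup G).normalCore = ⊤ := Subgroup.normalCore_eq_self ⊤
      rw [h1, Subgroup.index_top]
      exact Nat.one_le_pow _ _ hC1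
    · obtain ⟨V, hV, -⟩ := (lt_top_iff_ne_top.2 hU).exists_covby_le
      have hm : U.relIndex V * V.index = n := by rw [Subgroup.relIndex_mul_index hV.le, hn]
      have hb0 : U.relIndex V ≠ 0 := Subgroup.index_ne_zero_of_finite
      have hb1 : U.relIndex V ≠ 1 := fun h1 => hV.lt.not_ge (Subgroup.relIndex_eq_one.1 h1)
      have hn0 : V.index ≠ 0 := Subgroup.index_ne_zero_of_finite
      obtain ⟨b, hb⟩ : ∃ b, U.relIndex V = b + 2 := ⟨U.relIndex V - 2, by omega⟩
      obtain ⟨k, hk⟩ : ∃ k, V.index = k + 1 := ⟨V.index - 1, by omega⟩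
      have hlt : V.index < n := by rw [← hm, hb, hk]; nlinarith
      have h1 := ih _ hlt V rfl
      refine (core_step hG hC hV).trans ((Nat.mul_le_mul_right _ h1).trans (le_of_eq ?_))
      rw [← pow_mul, ← pow_add, ← hm, hb, hk]
      congr 1
      have : (b + 2) * (k + 1) = (k + (b + 1) * (k + 1)) + 1 := by ring
      rw [this]
      simp

theorem outer (hG : PB G A) (hC : ∀ b, 2 ≤ b → tb A b ≤ C ^ (b - 1)) (hC1 : 1 ≤ C)
    {U U₁ : Subgroup G} {s' : ℕ} (h : Fam U U₁ s') (hU : U ≤ U₁) :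
    ∃ s, Fam U ⊤ s ∧ s' ^ U₁.index ≤ s * C ^ U₁.index := by
  obtain ⟨s, hs, hle⟩ := h.step hU le_top U₁.normalCore U₁.normalCore_le
    (fun v _ x hx => (inferInstance : U₁.normalCore.Normal).conj_mem x hx v)
  rw [Subgroup.relIndex_top_right, Subgroup.relIndex_top_right] at hle
  refine ⟨s, hs, hle.trans (Nat.mul_le_mul_left _ ((core_le hG hC hC1 U₁).trans ?_))⟩
  exact Nat.pow_le_pow_right hC1 (Nat.sub_le _ _)

theorem fam_exp' (hC : ∀ b, 2 ≤ b → tb A b ≤ C ^ (b - 1)) (hC1 : 1 ≤ C) :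
    ∃ B, ∀ (H : Type) [Group H] [Finite H], PB H A → ∀ U : Subgroup H,
    ∃ s, Fam U ⊤ s ∧ 2 ^ U.index ≤ s ^ B := by
  obtain ⟨b₀, hb₀⟩ := num_b A C
  refine ⟨2 * (2 * C) + 2 * C * b₀, fun H _ _ hG U => ?_⟩
  by_cases hn : U.index < 2 * C
  · refine ⟨U.relIndex ⊤ + 1, fam_card le_top, ?_⟩
    rw [Subgroup.relIndex_top_right]
    have h0 : U.index ≠ 0 := Subgroup.index_ne_zero_of_finite
    calc 2 ^ U.index ≤ 2 ^ (2 * (2 * C) + 2 * C * b₀) := Nat.pow_le_pow_right (by norm_num) (by omega)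
      _ ≤ (U.index + 1) ^ (2 * (2 * C) + 2 * C * b₀) := Nat.pow_le_pow_left (by omega) _
  · obtain ⟨U₁, ⟨hU1, h32⟩, hmin⟩ := (wellFounded_lt (α := Subgroup H)).has_min
      {W | U ≤ W ∧ 2 * C ≤ U.relIndex W} ⟨⊤, le_top, by rw [Subgroup.relIndex_top_right]; omega⟩
    have hlt : U < U₁ := by
      refine lt_of_le_of_ne hU1 ?_
      rintro rfl
      rw [Subgroup.relIndex_self] at h32
      omega
    obtain ⟨U₀, hU0, hcov⟩ := exists_le_covBy_of_lt hlt
    have ha : U.relIndex U₀ < 2 * C := by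
      by_contra hcon
      exact hmin U₀ ⟨hU0, by omega⟩ hcov.lt
    have hidx : U.index = U.relIndex U₀ * U₀.relIndex U₁ * U₁.index := by
      rw [Subgroup.relIndex_mul_relIndex U U₀ U₁ hU0 hcov.le, Subgroup.relIndex_mul_index hU1]
    by_cases hb : U₀.relIndex U₁ ≤ b₀
    · obtain ⟨s, hs, hle⟩ := outer hG hC hC1 (fam_card hU1) hU1
      refine ⟨s, hs, ?_⟩
      have h2 : 2 ^ U₁.index ≤ s := by
        have : 2 ^ U₁.index * C ^ U₁.index ≤ s * C ^ U₁.index := by
          rw [← mul_pow]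
          exact (Nat.pow_le_pow_left (by omega) _).trans hle
        exact Nat.le_of_mul_le_mul_right this (by positivity)
      have hs1 : 1 ≤ s := le_trans (Nat.one_le_two_pow) h2
      calc 2 ^ U.index ≤ 2 ^ (U₁.index * (2 * C * b₀)) := by
            refine Nat.pow_le_pow_right (by norm_num) ?_
            rw [hidx, mul_comm U₁.index]
            exact Nat.mul_le_mul_right _ (Nat.mul_le_mul ha.le hb)
        _ ≤ s ^ (2 * C * b₀) := by
            rw [pow_mul]
            exact Nat.pow_le_pow_left h2 _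
        _ ≤ s ^ (2 * (2 * C) + 2 * C * b₀) := Nat.pow_le_pow_right hs1 (by omega)
    · obtain ⟨c, hc1, hc2, hc3⟩ := hG _ _ hcov
      obtain ⟨s', hs', hle'⟩ := (fam_card (le_refl U₀)).step le_rfl hcov.le c hc1 hc2
      rw [Subgroup.relIndex_self] at hle'
      obtain ⟨s, hs, hle⟩ := outer hG hC hC1 (hs'.anti hU0) hU1
      refine ⟨s, hs, ?_⟩
      have hnum := hb₀ _ (not_le.1 hb)
      generalize U₀.relIndex U₁ = b at *
      generalize U₁.index = n at *
      generalize tb A b = t at *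
      have h3 : 2 ^ b ≤ s' * t := hle'.trans (Nat.mul_le_mul_left _ hc3)
      have h4 : C ^ 2 * 2 ^ b ≤ s' ^ 2 := by
        have : C ^ 2 * 2 ^ b * 2 ^ b ≤ s' ^ 2 * 2 ^ b := by
          calc C ^ 2 * 2 ^ b * 2 ^ b = C ^ 2 * (2 ^ b * 2 ^ b) := by ring
            _ ≤ C ^ 2 * ((s' * t) * (s' * t)) := Nat.mul_le_mul_left _ (Nat.mul_le_mul h3 h3)
            _ = s' ^ 2 * (C ^ 2 * t ^ 2) := by ring
            _ ≤ s' ^ 2 * 2 ^ b := Nat.mul_le_mul_left _ hnum
        exact Nat.le_of_mul_le_mul_right this (by positivity)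
      have h5 : 2 ^ (b * n) ≤ s ^ 2 := by
        have : 2 ^ (b * n) * (C ^ 2) ^ n ≤ s ^ 2 * (C ^ 2) ^ n := by
          calc 2 ^ (b * n) * (C ^ 2) ^ n = (C ^ 2 * 2 ^ b) ^ n := by rw [mul_pow, pow_mul, mul_comm]
            _ ≤ (s' ^ 2) ^ n := Nat.pow_le_pow_left h4 _
            _ = (s' ^ n) ^ 2 := by rw [← pow_mul, ← pow_mul, mul_comm]
            _ ≤ (s * C ^ n) ^ 2 := Nat.pow_le_pow_left hle _
            _ = s ^ 2 * (C ^ 2) ^ n := by
              rw [mul_pow, ← pow_mul C, mul_comm n 2, pow_mul]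
        exact Nat.le_of_mul_le_mul_right this (by positivity)
      have hs1 : 1 ≤ s := by
        rcases Nat.eq_zero_or_pos s with rfl | h
        · have : 0 < 2 ^ (b * n) := by positivity
          omega
        · exact h
      calc 2 ^ U.index ≤ 2 ^ (b * n * (2 * C)) := by
            refine Nat.pow_le_pow_right (by norm_num) ?_
            rw [hidx, mul_assoc, mul_comm (b * n)]
            exact Nat.mul_le_mul_right _ ha.le
        _ ≤ (s ^ 2) ^ (2 * C) := by
            rw [pow_mul]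
            exact Nat.pow_le_pow_left h5 _
        _ ≤ s ^ (2 * (2 * C) + 2 * C * b₀) := by
            rw [← pow_mul]
            exact Nat.pow_le_pow_right hs1 (by omega)

end Pool.Agent.Lib.MP_98dfd6_al.AS
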