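import Pool.Agent.Lib.MP_98dfd6_al.Stmt

/-! Almost simple groups and multiplicities of faithful Brauer degrees. -/

namespace Pool.Agent.Lib.MP_98dfd6_al

/-- `A` has a normal non-abelian simple subgroup with trivial centraliser. -/
def AlmostSimple (A : Type) [Group A] : Prop :=
  ∃ S : Subgroup A, S.Normal ∧ IsSimpleGroup S ∧ (∃ a b : S, a * b ≠ b * a) ∧
    Subgroup.centralizer (S : Set A) = ⊥

/-- Every degree `d` occurs at most `m` times among the isomorphism classes of faithful
irreducible representations of `A` over `k`. -/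
def FaithLe (k A : Type) [Field k] [Group A] (m : ℕ) : Prop :=
  ∀ (d n : ℕ) (ρ : Fin n → Representation k A (Fin d → k)),
    (∀ i, (ρ i).IsIrreducible) → (∀ i, Function.Injective (ρ i)) →
      (∀ i j, Nonempty ((ρ i).Equiv (ρ j)) → i = j) → n ≤ m

/-- Every almost simple quotient `A` of a subgroup of `G` with `FaithLe k A m` has order at
most `s`. -/
def SecLe (k G : Type) [Field k] [Group G] (m s : ℕ) : Prop :=
  ∀ (H : Subgroup G) (A : Type) [Group A] (f : H →* A), Function.Surjective f →
    AlmostSimple A → FaithLe k A m → Nat.card A ≤ s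

end Pool.Agent.Lib.MP_98dfd6_al
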