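import Pool.Agent.Lib.MP_98dfd6_al.Main
import Pool.Agent.Lib.MP_98dfd6_al.AS.Stmt

/-! Groups whose non-abelian simple sections are small, and families of components. -/

namespace Pool.Agent.Lib.MP_98dfd6_al.AS

variable {G : Type} [Group G]

/-- All non-abelian simple sections have order at most `s`. -/
def Sec (G : Type) [Group G] (s : ℕ) : Prop :=
  ∀ (X S : Type) [Group X] [Group S] (ι : X →* G) (f : X →* S), Function.Injective ι →
    Function.Surjective f → IsSimpleGroup S → (∃ a b : S, a * b ≠ b * a) → Nat.card S ≤ s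

theorem Sec.of_inj {s : ℕ} (h : Sec G s) {G' : Type} [Group G'] (j : G' →* G)
    (hj : Function.Injective j) : Sec G' s :=
  fun X S _ _ ι f hι hf => h X S (j.comp ι) f (hj.comp hι) hf

theorem Sec.subgroup {s : ℕ} (h : Sec G s) (V : Subgroup G) : Sec V s :=
  h.of_inj V.subtype V.subtype_injective

theorem Sec.of_surj {s : ℕ} (h : Sec G s) {G' : Type} [Group G'] (π : G →* G')
    (hπ : Function.Surjective π) : Sec G' s := by
  intro X S _ _ ι f hι hf
  let Y : Subgroup G := ι.range.comap π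
  let r : Y →* ι.range := (π.comp Y.subtype).codRestrict ι.range fun y => y.2
  have hr : Function.Surjective r := by
    rintro ⟨z, hz⟩
    obtain ⟨g, rfl⟩ := hπ z
    exact ⟨⟨g, hz⟩, rfl⟩
  exact h Y S Y.subtype (f.comp ((MonoidHom.ofInjective hι).symm.toMonoidHom.comp r))
    Y.subtype_injective (hf.comp ((MonoidHom.ofInjective hι).symm.surjective.comp hr))

theorem Sec.of_card [Finite G] {s : ℕ} (h : Nat.card G ≤ s) : Sec G s := by
  intro X S _ _ ι f hι hf _ _
  have : Finite X := Finite.of_injective ι hι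
  exact (Nat.card_le_card_of_surjective f hf).trans
    ((Nat.card_le_card_of_injective ι hι).trans h)

theorem Sec.of_comm {s : ℕ} (h : ∀ a b : G, a * b = b * a) : Sec G s := by
  rintro X S _ _ ι f hι hf _ ⟨a, b, hab⟩
  obtain ⟨x, rfl⟩ := hf a
  obtain ⟨y, rfl⟩ := hf b
  exact absurd (by rw [← map_mul, ← map_mul, hι (by rw [map_mul, map_mul, h] :
    ι (x * y) = ι (y * x))]) hab

theorem Sec.ext {s : ℕ} (N : Subgroup G) [N.Normal] (h1 : Sec N s) (h2 : Sec (G ⧸ N) s) :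
    Sec G s := by
  intro X S _ _ ι f hι hf hS hnc
  let K : Subgroup X := N.comap ι
  have hK : K.Normal := inferInstance
  rcases hS.eq_bot_or_eq_top_of_normal (K.map f) (hK.map f hf) with h | h
  · have hle : K ≤ f.ker := (Subgroup.map_eq_bot_iff K).1 h
    refine h2 (X ⧸ K) S (QuotientGroup.map K N ι le_rfl) (QuotientGroup.lift K f hle) ?_ ?_ hS hnc
    · rw [injective_iff_map_eq_one]
      intro x hx
      obtain ⟨x, rfl⟩ := QuotientGroup.mk_surjective x
      rw [QuotientGroup.map_mk, QuotientGroup.eq_one_iff] at hx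
      exact (QuotientGroup.eq_one_iff x).2 hx
    · intro a
      obtain ⟨x, rfl⟩ := hf a
      exact ⟨(x : X ⧸ K), rfl⟩
  · refine h1 K S ((ι.comp K.subtype).codRestrict N fun y => y.2) (f.comp K.subtype) ?_ ?_ hS hnc
    · intro x y hxy
      exact Subtype.ext (hι (congrArg Subtype.val hxy))
    · intro a
      have : a ∈ K.map f := h ▸ Subgroup.mem_top a
      obtain ⟨x, hx, rfl⟩ := this
      exact ⟨⟨x, hx⟩, rfl⟩

/-- Conjugate subgroup. -/
def cj (g : G) (S : Subgroup G) : Subgroup G where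
  carrier := {x | g⁻¹ * x * g ∈ S}
  one_mem' := by simp
  mul_mem' := by
    intro a b ha hb
    have h : g⁻¹ * (a * b) * g = (g⁻¹ * a * g) * (g⁻¹ * b * g) := by group
    show g⁻¹ * (a * b) * g ∈ S
    rw [h]
    exact S.mul_mem ha hb
  inv_mem' := by
    intro a ha
    have h : g⁻¹ * a⁻¹ * g = (g⁻¹ * a * g)⁻¹ := by group
    show g⁻¹ * a⁻¹ * g ∈ S
    rw [h]
    exact S.inv_mem ha

theorem mem_cj {g x : G} {S : Subgroup G} : x ∈ cj g S ↔ g⁻¹ * x * g ∈ S := Iff.rfl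

theorem conj_mem_cj {g x : G} {S : Subgroup G} : g * x * g⁻¹ ∈ cj g S ↔ x ∈ S := by
  rw [mem_cj]
  have : g⁻¹ * (g * x * g⁻¹) * g = x := by group
  rw [this]

theorem cj_one (S : Subgroup G) : cj 1 S = S := by
  ext x
  simp [mem_cj]

theorem cj_mul (g h : G) (S : Subgroup G) : cj (g * h) S = cj g (cj h S) := by
  ext x
  simp [mem_cj, mul_assoc]

theorem cj_inv_cj (g : G) (S : Subgroup G) : cj g⁻¹ (cj g S) = S := by
  rw [← cj_mul, inv_mul_cancel, cj_one]

theorem cj_cj_inv (g : G) (S : Subgroup G) : cj g (cj g⁻¹ S) = S := by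
  rw [← cj_mul, mul_inv_cancel, cj_one]

theorem cj_mono (g : G) {S S' : Subgroup G} (h : S ≤ S') : cj g S ≤ cj g S' :=
  fun _ hx => h hx

theorem cj_bot (g : G) : cj g (⊥ : Subgroup G) = ⊥ := by
  ext x
  simp only [mem_cj, Subgroup.mem_bot]
  constructor
  · intro h
    have : x = g * (g⁻¹ * x * g) * g⁻¹ := by group
    rw [this, h]
    simp
  · rintro rfl
    simp

theorem cj_eq_iff {g : G} {S : Subgroup G} :
    cj g S = S ↔ g ∈ Subgroup.normalizer (S : Set G) := by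
  rw [Subgroup.mem_normalizer_iff'']
  constructor
  · intro h x
    rw [← mem_cj, h]
  · intro h
    ext x
    rw [mem_cj, ← h]

/-- A non-abelian simple subgroup. -/
structure SN (S : Subgroup G) : Prop where
  nc : ∃ a ∈ S, ∃ b ∈ S, a * b ≠ b * a
  simple : ∀ L : Subgroup G, L ≤ S → (∀ x ∈ S, ∀ y ∈ L, x * y * x⁻¹ ∈ L) → L = ⊥ ∨ L = S

theorem SN.ne_bot {S : Subgroup G} (h : SN S) : S ≠ ⊥ := by
  rintro rfl
  obtain ⟨a, ha, b, -, hab⟩ := h.nc
  rw [Subgroup.mem_bot.1 ha] at hab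
  simp at hab

theorem SN.nc' {S : Subgroup G} (h : SN S) : ∃ a b : S, a * b ≠ b * a := by
  obtain ⟨a, ha, b, hb, hab⟩ := h.nc
  exact ⟨⟨a, ha⟩, ⟨b, hb⟩, fun e => hab (congrArg Subtype.val e)⟩

theorem SN.isSimple {S : Subgroup G} (h : SN S) : IsSimpleGroup S := by
  have : Nontrivial S := (Subgroup.nontrivial_iff_ne_bot S).2 h.ne_bot
  refine ⟨fun L hL => ?_⟩
  rcases h.simple (L.map S.subtype) (Subgroup.map_subtype_le L) (by
    rintro x hx _ ⟨y, hy, rfl⟩
    exact ⟨⟨x, hx⟩ * y * ⟨x, hx⟩⁻¹, hL.conj_mem y hy _, rfl⟩) with h1 | h1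
  · exact Or.inl ((Subgroup.map_eq_bot_iff_of_injective L S.subtype_injective).1 h1)
  · right
    apply Subgroup.map_injective S.subtype_injective
    rw [h1, ← MonoidHom.range_eq_map, Subgroup.range_subtype]

theorem SN.centre {S : Subgroup G} (h : SN S) {x : G} (hx : x ∈ S)
    (hc : ∀ y ∈ S, y * x = x * y) : x = 1 := by
  rcases h.simple (S ⊓ Subgroup.centralizer (S : Set G)) inf_le_left (by
    intro a ha y hy
    have h1 : a * y = y * a := Subgroup.mem_centralizer_iff.1 hy.2 a ha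
    rw [h1, mul_inv_cancel_right]
    exact hy) with h1 | h1
  · have : x ∈ S ⊓ Subgroup.centralizer (S : Set G) := ⟨hx, Subgroup.mem_centralizer_iff.2 hc⟩
    rwa [h1, Subgroup.mem_bot] at this
  · obtain ⟨a, ha, b, hb, hab⟩ := h.nc
    rw [← h1] at hb
    exact absurd (Subgroup.mem_centralizer_iff.1 hb.2 a ha) hab

theorem SN.card_le {S : Subgroup G} (h : SN S) {s : ℕ} (hG : Sec G s) : Nat.card S ≤ s :=
  hG S S S.subtype (MonoidHom.id S) S.subtype_injective Function.surjective_id h.isSimple h.nc'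

/-- A conjugation invariant family of pairwise commuting non-abelian simple subgroups. -/
structure CF (T : Set (Subgroup G)) : Prop where
  sn : ∀ S ∈ T, SN S
  cj : ∀ g, ∀ S ∈ T, cj g S ∈ T
  comm : ∀ S ∈ T, ∀ S' ∈ T, S ≠ S' → ∀ x ∈ S, ∀ y ∈ S', x * y = y * x

theorem sSup_normal {T : Set (Subgroup G)} (h : ∀ g, ∀ S ∈ T, cj g S ∈ T) : (sSup T).Normal := by
  refine ⟨fun x hx g => ?_⟩
  have h1 : sSup T ≤ cj g⁻¹ (sSup T) := by
    refine sSup_le fun S hS y hy => ?_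
    rw [mem_cj, inv_inv]
    exact le_sSup (h g S hS) (conj_mem_cj.2 hy)
  have h2 := h1 hx
  rwa [mem_cj, inv_inv] at h2

theorem CF.le_norm {T : Set (Subgroup G)} (h : CF T) {S : Subgroup G} (hS : S ∈ T) :
    sSup T ≤ Subgroup.normalizer (S : Set G) := by
  refine sSup_le fun S' hS' => ?_
  by_cases e : S' = S
  · rw [e]
    exact Subgroup.le_normalizer
  · refine le_trans (fun y hy => ?_) (Subgroup.centralizer_le_normalizer (S : Set G))
    exact Subgroup.mem_centralizer_iff.2 fun x hx => (h.comm S' hS' S hS e y hy x hx).symm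

theorem CF.conj_mem {T : Set (Subgroup G)} (h : CF T) {S : Subgroup G} (hS : S ∈ T) {n x : G}
    (hn : n ∈ sSup T) (hx : x ∈ S) : n * x * n⁻¹ ∈ S :=
  (Subgroup.mem_normalizer_iff.1 (h.le_norm hS hn) x).1 hx

/-- A minimal normal subgroup. -/
structure MinN (M : Subgroup G) : Prop where
  normal : M.Normal
  ne : M ≠ ⊥
  min : ∀ L : Subgroup G, L.Normal → L ≤ M → L = ⊥ ∨ L = M

theorem exists_minN [Finite G] {C : Subgroup G} (hC : C.Normal) (h0 : C ≠ ⊥) :
    ∃ M, MinN M ∧ M ≤ C := by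
  obtain ⟨M, ⟨h1, h2, h3⟩, hmin⟩ := (wellFounded_lt (α := Subgroup G)).has_min
    {L | L.Normal ∧ L ≠ ⊥ ∧ L ≤ C} ⟨C, hC, h0, le_rfl⟩
  refine ⟨M, ⟨h1, h2, fun L hL hle => ?_⟩, h3⟩
  by_contra hcon
  rw [not_or] at hcon
  exact hmin L ⟨hL, hcon.1, hle.trans h3⟩ (lt_of_le_of_ne hle hcon.2)

theorem exists_CF [Finite G] {M : Subgroup G} (hM : MinN M)
    (hnc : ∃ a ∈ M, ∃ b ∈ M, a * b ≠ b * a) :
    ∃ T : Set (Subgroup G), CF T ∧ T.Nonempty ∧ sSup T = M ∧
      ∀ S ∈ T, ∀ S' ∈ T, ∃ g, cj g S = S' := by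
  have hn := hM.normal
  let P : Subgroup G → Prop := fun L => ∀ x ∈ M, ∀ y ∈ L, x * y * x⁻¹ ∈ L
  obtain ⟨S, ⟨h1, h2, h3⟩, hmin⟩ := (wellFounded_lt (α := Subgroup G)).has_min
    {L | P L ∧ L ≠ ⊥ ∧ L ≤ M} ⟨M, fun x _ y hy => hn.conj_mem y hy x, hM.ne, le_rfl⟩
  have hPc : ∀ g L, P L → P (cj g L) := by
    intro g L hL x hx y hy
    have e : g⁻¹ * (x * y * x⁻¹) * g = (g⁻¹ * x * g) * (g⁻¹ * y * g) * (g⁻¹ * x * g)⁻¹ := by group
    rw [mem_cj, e]
    exact hL _ (by simpa using hn.conj_mem x hx g⁻¹) _ hy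
  have hle : ∀ g, cj g S ≤ M := by
    intro g x hx
    have h4 := hn.conj_mem _ (h3 hx) g
    have e : g * (g⁻¹ * x * g) * g⁻¹ = x := by group
    rwa [e] at h4
  have hne : ∀ g, cj g S ≠ ⊥ := by
    intro g h
    apply h2
    rw [← cj_inv_cj g S, h, cj_bot]
  have hmn : ∀ g L, P L → L ≤ cj g S → L = ⊥ ∨ L = cj g S := by
    intro g L hL hLe
    have h4 : cj g⁻¹ L ≤ S := by
      have := cj_mono g⁻¹ hLe
      rwa [cj_inv_cj] at this
    by_cases h5 : cj g⁻¹ L = ⊥
    · left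
      rw [← cj_cj_inv g L, h5, cj_bot]
    · right
      have h6 : cj g⁻¹ L = S := by
        by_contra h6
        exact hmin _ ⟨hPc _ _ hL, h5, h4.trans h3⟩ (lt_of_le_of_ne h4 h6)
      rw [← h6, cj_cj_inv]
  let T : Set (Subgroup G) := Set.range fun g => cj g S
  have hcj : ∀ g, ∀ S' ∈ T, cj g S' ∈ T := by
    rintro g _ ⟨a, rfl⟩
    exact ⟨g * a, cj_mul g a S⟩
  have hcomm : ∀ S₁ ∈ T, ∀ S₂ ∈ T, S₁ ≠ S₂ → ∀ x ∈ S₁, ∀ y ∈ S₂, x * y = y * x := by
    rintro _ ⟨a, rfl⟩ _ ⟨b, rfl⟩ hab x hx y hy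
    have hb : cj a S ⊓ cj b S = ⊥ := by
      rcases hmn a (cj a S ⊓ cj b S) (fun u hu v hv =>
        ⟨hPc a S h1 u hu v hv.1, hPc b S h1 u hu v hv.2⟩) inf_le_left with h | h
      · exact h
      · rcases hmn b (cj a S) (hPc a S h1) (inf_eq_left.1 h) with h' | h'
        · exact absurd h' (hne a)
        · exact absurd h' hab
    have h4 : x * y * x⁻¹ * y⁻¹ ∈ cj a S ⊓ cj b S := by
      refine ⟨?_, (cj b S).mul_mem (hPc b S h1 x (hle a hx) y hy) ((cj b S).inv_mem hy)⟩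
      have e : x * y * x⁻¹ * y⁻¹ = x * (y * x⁻¹ * y⁻¹) := by group
      rw [e]
      exact (cj a S).mul_mem hx (hPc a S h1 y (hle b hy) _ ((cj a S).inv_mem hx))
    rw [hb, Subgroup.mem_bot] at h4
    have e : x * y = (x * y * x⁻¹ * y⁻¹) * (y * x) := by group
    rw [e, h4, one_mul]
  have hS : S ∈ T := ⟨1, cj_one S⟩
  have hsup : sSup T = M := by
    rcases hM.min (sSup T) (sSup_normal hcj) (sSup_le (by rintro _ ⟨g, rfl⟩; exact hle g))
      with h | h
    · exact absurd (le_bot_iff.1 (h ▸ le_sSup hS)) h2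
    · exact h
  have hZ : M ⊓ Subgroup.centralizer (M : Set G) = ⊥ := by
    rcases hM.min (M ⊓ Subgroup.centralizer (M : Set G)) inferInstance inf_le_left with h | h
    · exact h
    · obtain ⟨a, ha, b, hb, hab⟩ := hnc
      rw [← h] at hb
      exact absurd (Subgroup.mem_centralizer_iff.1 hb.2 a ha) hab
  refine ⟨T, ⟨?_, hcj, hcomm⟩, ⟨S, hS⟩, hsup, ?_⟩
  · rintro _ ⟨g, rfl⟩
    refine ⟨?_, fun L hL hLn => hmn g L ?_ hL⟩
    · by_contra hcon
      push Not at hcon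
      apply hne g
      rw [eq_bot_iff, ← hZ]
      intro x hx
      refine ⟨hle g hx, Subgroup.mem_centralizer_iff.2 fun y hy => ?_⟩
      have h4 : sSup T ≤ Subgroup.centralizer {x} := by
        refine sSup_le fun S' hS' z hz => Subgroup.mem_centralizer_singleton_iff.2 ?_
        by_cases e : S' = cj g S
        · exact hcon z (e ▸ hz) x hx
        · exact hcomm S' hS' _ ⟨g, rfl⟩ e z hz x hx
      rw [hsup] at h4
      exact Subgroup.mem_centralizer_singleton_iff.1 (h4 hy)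
    · have h4 : sSup T ≤ Subgroup.normalizer (L : Set G) := by
        refine sSup_le fun S' hS' z hz => Subgroup.mem_normalizer_fintype fun y hy => ?_
        by_cases e : S' = cj g S
        · exact hLn z (by rw [e] at hz; exact hz) y hy
        · rw [hcomm S' hS' _ ⟨g, rfl⟩ e z hz y (hL hy), mul_inv_cancel_right]
          exact hy
      rw [hsup] at h4
      intro x hx y hy
      exact (Subgroup.mem_normalizer_iff.1 (h4 hx) y).1 hy
  · rintro _ ⟨a, rfl⟩ _ ⟨b, rfl⟩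
    exact ⟨b * a⁻¹, by rw [← cj_mul, inv_mul_cancel_right]⟩

end Pool.Agent.Lib.MP_98dfd6_al.AS
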