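import Pool.Agent.Lib.MP_98dfd6_al.AS.Deg

/-! Supports of irreducible representations on a family of components. -/

namespace Pool.Agent.Lib.MP_98dfd6_al.AS

variable {k G : Type} [Field k] [Group G] [Finite G]

theorem SN.char {p : ℕ} [Fact p.Prime] [IsAlgClosed k] [CharP k p] {S : Subgroup G} (h : SN S) :
    ∃ E : Subgroup G, E ≤ S ∧ ∃ (χ : E →* kˣ) (x : E), χ x ≠ 1 := by
  have hp : p.Prime := Fact.out
  have h1 : ∃ r, r.Prime ∧ r ∣ Nat.card S ∧ r ≠ p := by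
    by_contra hcon
    push Not at hcon
    have h2 : IsPGroup p S := IsPGroup.of_card
      (Nat.eq_prime_pow_of_unique_prime_dvd Nat.card_pos.ne' fun hd hdv => hcon _ hd hdv)
    have : Nontrivial S := (Subgroup.nontrivial_iff_ne_bot S).2 h.ne_bot
    have := h2.center_nontrivial
    obtain ⟨z, hz⟩ := exists_ne (1 : Subgroup.center S)
    apply hz
    apply Subtype.ext
    apply Subtype.ext
    exact h.centre z.1.2 fun y hy =>
      congrArg Subtype.val (Subgroup.mem_center_iff.1 z.2 ⟨y, hy⟩)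
  obtain ⟨r, hr, hd, hne⟩ := h1
  have : Fact r.Prime := ⟨hr⟩
  obtain ⟨x, hx⟩ := exists_prime_orderOf_dvd_card' r hd
  have hx' : orderOf (x : G) = r := by rw [Subgroup.orderOf_coe, hx]
  obtain ⟨χ, hχ⟩ := ch_sep (k := k) (p := p) (Subgroup.zpowers (x : G)) ⊥ (by
      rw [le_bot_iff, Subgroup.commutator_eq_bot_iff_le_centralizer]
      exact Subgroup.le_centralizer _) (by
      rw [Subgroup.relIndex_bot_left, Nat.card_zpowers, hx']
      exact (Nat.coprime_primes hr hp).2 hne) (f := ⟨x, Subgroup.mem_zpowers _⟩) (by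
      intro h0
      rw [Subgroup.mem_bot.1 h0, orderOf_one] at hx'
      exact hr.one_lt.ne hx')
  exact ⟨_, Subgroup.zpowers_le_of_mem x.2, χ.val, _, hχ⟩

theorem supp_exists {p : ℕ} [Fact p.Prime] [IsAlgClosed k] [CharP k p] {T : Set (Subgroup G)}
    (hT : CF T) (J : Set (Subgroup G)) :
    ∃ (d : ℕ) (ρ : Representation k G (Fin d → k)) (φ : (Fin d → k) →ₗ[k] k), ρ.IsIrreducible ∧
      φ ≠ 0 ∧ (∀ S ∈ T, S ∉ J → ∀ x ∈ S, ∀ v, φ (ρ x v) = φ v) ∧
      ∀ S ∈ T, S ∈ J → ∃ x ∈ S, ∃ c : k, c ≠ 1 ∧ ∀ v, φ (ρ x v) = c * φ v := by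
  classical
  have : Fintype T := Fintype.ofFinite T
  have hex : ∀ S : T, ∃ E : Subgroup G, E ≤ S ∧ ∃ χ : E →* kˣ,
      (S.1 ∉ J → E = S ∧ χ = 1) ∧ (S.1 ∈ J → ∃ x, χ x ≠ 1) := by
    intro S
    by_cases h : S.1 ∈ J
    · obtain ⟨E, h1, χ, x, h2⟩ := (hT.sn S S.2).char (k := k) (p := p)
      exact ⟨E, h1, χ, fun h' => absurd h h', fun _ => ⟨x, h2⟩⟩
    · exact ⟨S, le_rfl, 1, fun _ => ⟨rfl, rfl⟩, fun h' => absurd h' h⟩
  choose E hE χ h1 h2 using hex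
  have hcomm : Pairwise fun i j : T => ∀ x y : G, x ∈ E i → y ∈ E j → Commute x y :=
    fun i j hij x y hx hy =>
      hT.comm i i.2 j j.2 (fun e => hij (Subtype.ext e)) x (hE i hx) y (hE j hy)
  have hind : iSupIndep E := by
    intro i
    rw [disjoint_iff, eq_bot_iff]
    intro x hx
    have h3 : (⨆ j, ⨆ _ : j ≠ i, E j) ≤ Subgroup.centralizer (i.1 : Set G) :=
      iSup₂_le fun j hj y hy => Subgroup.mem_centralizer_iff.2 fun z hz =>
        hT.comm i i.2 j j.2 (fun e => hj (Subtype.ext e).symm) z hz y (hE j hy)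
    exact (hT.sn i i.2).centre (hE i hx.1) (Subgroup.mem_centralizer_iff.1 (h3 hx.2))
  have hinj : Function.Injective (Subgroup.noncommPiCoprod hcomm) :=
    Subgroup.injective_noncommPiCoprod_of_iSupIndep hind
  let μ : (∀ i, E i) →* kˣ := ∏ i, (χ i).comp (Pi.evalMonoidHom (fun i => E i) i)
  have hμ : ∀ i (x : E i), μ (Pi.mulSingle i x) = χ i x := by
    intro i x
    rw [MonoidHom.finsetProd_apply, Finset.prod_eq_single_of_mem i (Finset.mem_univ i)]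
    · simp
    · intro j _ hj
      simp [Pi.mulSingle_eq_of_ne hj]
  obtain ⟨d, ρ, φ, h3, -, h4, h5⟩ := exists_simple_char (Subgroup.noncommPiCoprod hcomm).range
    (μ.comp (MonoidHom.ofInjective hinj).symm.toMonoidHom)
  have key : ∀ i (x : E i) v, φ (ρ x v) = χ i x * φ v := by
    intro i x v
    have h6 := h5 (MonoidHom.ofInjective hinj (Pi.mulSingle i x)) v
    rw [MonoidHom.ofInjective_apply, Subgroup.noncommPiCoprod_mulSingle] at h6
    rw [h6, ← hμ]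
    simp
  refine ⟨d, ρ, φ, h3, h4, fun S hS hJ x hx v => ?_, fun S hS hJ => ?_⟩
  · obtain ⟨e1, e2⟩ := h1 ⟨S, hS⟩ hJ
    have h6 := key ⟨S, hS⟩ ⟨x, by rw [e1]; exact hx⟩ v
    rw [e2] at h6
    simpa using h6
  · obtain ⟨x, hx⟩ := h2 ⟨S, hS⟩ hJ
    exact ⟨x, hE _ x.2, χ _ x, fun e => hx (Units.ext e), key _ x⟩

omit [Finite G] in
theorem supp_iff {T J : Set (Subgroup G)} (hT : CF T) {V W : Type} [AddCommGroup V] [Module k V]
    [AddCommGroup W] [Module k W] (ρ : Representation k G V) (hρ : ρ.IsIrreducible)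
    {φ : V →ₗ[k] k} (hφ : φ ≠ 0) (h1 : ∀ S ∈ T, S ∉ J → ∀ x ∈ S, ∀ v, φ (ρ x v) = φ v)
    (h2 : ∀ S ∈ T, S ∈ J → ∃ x ∈ S, ∃ c : k, c ≠ 1 ∧ ∀ v, φ (ρ x v) = c * φ v)
    (θ : Representation k (sSup T : Subgroup G) W) (hθ : θ.IsIrreducible) (ψ : W →ₗ[k] V)
    (hψ : Function.Injective ψ) (hint : ∀ n w, ψ (θ n w) = ρ n (ψ w)) :
    ∃ g, ∀ S ∈ T, (cj g S ∉ J ↔ ∀ x ∈ S, ∀ w, ρ x (ψ w) = ψ w) := by
  have := nontrivial_Rep3 θ hθ
  obtain ⟨w0, hw0⟩ := exists_ne (0 : W)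
  obtain ⟨g, hg⟩ : ∃ g, φ (ρ g (ψ w0)) ≠ 0 := by
    by_contra hcon
    push Not at hcon
    exact hw0 (hψ (by rw [irr_sep ρ hρ hφ hcon, map_zero]))
  refine ⟨g, fun S hS => ⟨fun hJ x hx w => ?_, fun h hJ => ?_⟩⟩
  · have hx' : x ∈ sSup T := le_sSup hS hx
    have h3 : θ ⟨x, hx'⟩ w - w = 0 := by
      refine irr_sep θ hθ (φ := φ ∘ₗ ρ g ∘ₗ ψ) (fun h0 => hg (LinearMap.congr_fun h0 w0))
        fun n => ?_
      change φ (ρ g (ψ (θ n (θ ⟨x, hx'⟩ w - w)))) = 0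
      have h4 := h1 _ (hT.cj g S hS) hJ _ (conj_mem_cj.2 (hT.conj_mem hS n.2 hx))
        (ρ g (ρ n (ψ w)))
      rw [map_sub, map_sub, map_sub, map_sub, hint, hint, hint, ← h4, sub_eq_zero]
      simp only [rep_mul]
      congr 3
      group
    have h4 := hint ⟨x, hx'⟩ w
    rw [sub_eq_zero.1 h3] at h4
    exact h4.symm
  · obtain ⟨x, hx, c, hc, h3⟩ := h2 _ (hT.cj g S hS) hJ
    have h4 := h3 (ρ g (ψ w0))
    have h5 : ρ x (ρ g (ψ w0)) = ρ g (ψ w0) := by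
      conv_rhs => rw [← h _ (mem_cj.1 hx) w0]
      simp only [rep_mul]
      congr 2
      group
    rw [h5] at h4
    exact hc (mul_right_cancel₀ hg (h4.symm.trans (one_mul _).symm))

theorem supp_count {p m N : ℕ} [Fact p.Prime] [IsAlgClosed k] [CharP k p] (hB : BrLe k G m)
    {T : Set (Subgroup G)} (hT : CF T) {ι : Type} [Finite ι] (D : ι → Set (Subgroup G))
    (hD1 : ∀ i, D i ⊆ T) (hD2 : ∀ i j g, (∀ x, x ∈ D i ↔ cj g x ∈ D j) → i = j) (hN0 : N ≠ 0)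
    (hN : ∀ (d : ℕ) (ρ : Representation k G (Fin d → k)), ρ.IsIrreducible → d ∣ N) :
    Nat.card ι ≤ m * N.divisors.card := by
  classical
  have : Fintype ι := Fintype.ofFinite ι
  let P : ℕ → ι → Prop := fun d i =>
    ∃ (ρ : Representation k G (Fin d → k)) (φ : (Fin d → k) →ₗ[k] k), ρ.IsIrreducible ∧
      φ ≠ 0 ∧ (∀ S ∈ T, S ∉ D i → ∀ x ∈ S, ∀ v, φ (ρ x v) = φ v) ∧
      ∀ S ∈ T, S ∈ D i → ∃ x ∈ S, ∃ c : k, c ≠ 1 ∧ ∀ v, φ (ρ x v) = c * φ v
  have hfib : ∀ d ∈ N.divisors, (Finset.univ.filter (P d)).card ≤ m := by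
    intro d _
    rw [← Fintype.card_subtype, ← mul_one m]
    have hc : ∀ i : {i // P d i}, P d i := fun i => i.2
    choose ρ φ h1 h2 h3 h4 using hc
    have key : ∀ i j, (ρ j).Equiv (ρ i) → j = i := by
      intro i j E
      have := nontrivial_Rep3 (ρ j) (h1 j)
      obtain ⟨e, θ, ψ, hθ, -, hψ, -, hint⟩ :=
        exists_irr_rep1 (G := (sSup T : Subgroup G)) ((ρ j).comp (sSup T).subtype)
      obtain ⟨g, hg⟩ := supp_iff hT (ρ j) (h1 j) (h2 j) (h3 j) (h4 j) θ hθ ψ hψ hint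
      have hEi : Function.Injective E.toLinearMap := E.toLinearEquiv.injective
      obtain ⟨g', hg'⟩ := supp_iff hT (ρ i) (h1 i) (h2 i) (h3 i) (h4 i) θ hθ
        (E.toLinearMap ∘ₗ ψ) (hEi.comp hψ) (fun n w => by
          change E.toLinearMap (ψ (θ n w)) = ρ i n (E.toLinearMap (ψ w))
          rw [hint, ← equiv_apply_rep2]
          rfl)
      refine Subtype.ext (hD2 _ _ (g' * g⁻¹) fun x => ?_)
      by_cases hx : x ∈ T
      · have h5 := hg _ (hT.cj g⁻¹ x hx)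
        have h6 := hg' _ (hT.cj g⁻¹ x hx)
        rw [cj_cj_inv] at h5
        rw [cj_mul, ← not_iff_not, h5, h6]
        refine forall₂_congr fun y _ => forall_congr' fun w => ?_
        change _ ↔ ρ i y (E.toLinearMap (ψ w)) = E.toLinearMap (ψ w)
        rw [← equiv_apply_rep2, hEi.eq_iff]
      · refine iff_of_false (fun h => hx (hD1 _ h)) fun h => hx ?_
        have h5 := hT.cj (g' * g⁻¹)⁻¹ _ (hD1 _ h)
        rwa [cj_inv_cj] at h5
    refine class_count hB ρ h1 fun i F hF => Finset.card_le_one.2 fun a ha b hb => ?_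
    rw [key i a (hF a ha).some, key i b (hF b hb).some]
  have hsub : (Finset.univ : Finset ι) ⊆ N.divisors.biUnion fun d => Finset.univ.filter (P d) := by
    intro i _
    obtain ⟨d, ρ, φ, h⟩ := supp_exists (k := k) (p := p) hT (D i)
    exact Finset.mem_biUnion.2 ⟨d, Nat.mem_divisors.2 ⟨hN d ρ h.1, hN0⟩,
      Finset.mem_filter.2 ⟨Finset.mem_univ _, ρ, φ, h⟩⟩
  have h1 := (Finset.card_le_card hsub).trans (Finset.card_biUnion_le_card_mul _ _ _ hfib)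
  rwa [Finset.card_univ, ← Nat.card_eq_fintype_card, mul_comm] at h1

end Pool.Agent.Lib.MP_98dfd6_al.AS
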