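import Pool.Agent.Lib.MP_98dfd6_al.AS.Intr
import Pool.Agent.Lib.MP_98dfd6_al.AS.Supp
import Pool.Agent.Lib.MP_98dfd6_al.AS.Ind

/-! The bound for the index of the solvable radical. -/

namespace Pool.Agent.Lib.MP_98dfd6_al.AS

theorem exists_maxCF {G : Type} [Group G] [Finite G]
    (h : ∀ N : Subgroup G, N.Normal → (∀ a ∈ N, ∀ b ∈ N, a * b = b * a) → N = ⊥) :
    ∃ T : Set (Subgroup G), CF T ∧ ∀ g : G, (∀ S ∈ T, ∀ x ∈ S, x * g = g * x) → g = 1 := by
  obtain ⟨T, hT, hmax⟩ := (wellFounded_gt (α := Set (Subgroup G))).has_min {T | CF T}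
    ⟨∅, fun _ h => h.elim, fun _ _ h => h.elim, fun _ h => h.elim⟩
  have hT : CF T := hT
  have := sSup_normal hT.cj
  have hC : Subgroup.centralizer ((sSup T : Subgroup G) : Set G) = ⊥ := by
    by_contra hC
    obtain ⟨M, hM, hle⟩ := exists_minN inferInstance hC
    obtain ⟨T', hT', ⟨S, hS⟩, rfl, -⟩ := exists_CF hM (by
      by_contra hcon
      push Not at hcon
      exact hM.ne (h M hM.normal hcon))
    have hc : ∀ S₁ ∈ T, ∀ S₂ ∈ T', ∀ x ∈ S₁, ∀ y ∈ S₂, x * y = y * x := fun S₁ h1 S₂ h2 x hx y hy =>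
      Subgroup.mem_centralizer_iff.1 (hle (le_sSup h2 hy)) x (le_sSup h1 hx)
    refine hmax (T ∪ T') ⟨?_, ?_, ?_⟩ (lt_of_le_of_ne Set.subset_union_left fun e => ?_)
    · rintro S₁ (h1 | h1)
      · exact hT.sn _ h1
      · exact hT'.sn _ h1
    · rintro g S₁ (h1 | h1)
      · exact Or.inl (hT.cj g _ h1)
      · exact Or.inr (hT'.cj g _ h1)
    · rintro S₁ (h1 | h1) S₂ (h2 | h2) hne x hx y hy
      · exact hT.comm _ h1 _ h2 hne x hx y hy
      · exact hc _ h1 _ h2 x hx y hy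
      · exact (hc _ h2 _ h1 y hy x hx).symm
      · exact hT'.comm _ h1 _ h2 hne x hx y hy
    · obtain ⟨a, ha, b, hb, hab⟩ := (hT'.sn S hS).nc
      exact hab (hc S (e ▸ Or.inr hS) S hS a ha b hb)
  refine ⟨T, hT, fun g hg => ?_⟩
  have h1 : sSup T ≤ Subgroup.centralizer {g} :=
    sSup_le fun S hS x hx => Subgroup.mem_centralizer_singleton_iff.2 (hg S hS x hx)
  rw [← Subgroup.mem_bot, ← hC]
  exact Subgroup.mem_centralizer_iff.2 fun x hx => Subgroup.mem_centralizer_singleton_iff.1 (h1 hx)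

theorem num_top (m c C B : ℕ) (hc : c ≠ 0) : ∃ n₀, ∀ n t a σ : ℕ, t ≠ 0 → a ∣ c ^ n → t ≤ C ^ n →
    2 ^ n ≤ σ ^ B → σ ≤ m * (c ^ Nat.log 2 (t * a) * (t * a)).divisors.card → n ≤ n₀ := by
  obtain ⟨K, hK⟩ := card_divisors_pow_k (B * (C + 1))
  obtain ⟨n₀, h₀⟩ := poly_Num
    (K * (m * ((C + c + 1) * Nat.log 2 c + 1) ^ Nat.log 2 c) ^ (B * (C + 1)))
    (Nat.log 2 c * (B * (C + 1)))
  refine ⟨n₀, fun n t a σ ht ha htC hσ hle => h₀ n ?_⟩
  have ht2 : t ≤ 2 ^ (C * n) := by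
    rw [pow_mul]
    exact htC.trans (Nat.pow_le_pow_left (le_two_pow_Num C) n)
  have ha2 : a ≤ 2 ^ (c * n) := by
    rw [pow_mul]
    exact (Nat.le_of_dvd (by positivity) ha).trans (Nat.pow_le_pow_left (le_two_pow_Num c) n)
  have hL : Nat.log 2 (t * a) ≤ n * (C + c) := log_le_Num _ _ (by
    rw [mul_add, pow_add, mul_comm n, mul_comm n]
    exact Nat.mul_le_mul ht2 ha2)
  have hdvd : c ^ Nat.log 2 (t * a) * (t * a) ∣ c ^ (n * (C + c + 1)) * t := by
    rw [mul_comm t, ← mul_assoc, mul_add_one, pow_add]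
    exact Nat.mul_dvd_mul_right (mul_dvd_mul (pow_dvd_pow _ (mul_comm t a ▸ hL)) ha) _
  have h1 : (c ^ Nat.log 2 (t * a) * (t * a)).divisors.card ≤
      (n * (C + c + 1) * Nat.log 2 c + 1) ^ Nat.log 2 c * t.divisors.card :=
    (Finset.card_le_card (Nat.divisors_subset_of_dvd (by positivity) hdvd)).trans
      ((card_divisors_mul_le _ _).trans (Nat.mul_le_mul_right _ (card_divisors_pow_le _ _)))
  have h2 : n * (C + c + 1) * Nat.log 2 c + 1 ≤ ((C + c + 1) * Nat.log 2 c + 1) * (n + 1) := by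
    nlinarith [Nat.zero_le ((C + c + 1) * Nat.log 2 c)]
  have h3 := (hK t ht).trans (Nat.mul_le_mul_left K ht2)
  generalize (C + c + 1) * Nat.log 2 c + 1 = E at *
  have h4 : σ ≤ m * E ^ Nat.log 2 c * (n + 1) ^ Nat.log 2 c * t.divisors.card := by
    refine hle.trans ?_
    rw [mul_assoc, mul_assoc, ← mul_assoc (E ^ _), ← mul_pow]
    exact Nat.mul_le_mul_left _ (h1.trans (Nat.mul_le_mul_right _ (Nat.pow_le_pow_left h2 _)))
  refine Nat.le_of_mul_le_mul_right (c := 2 ^ (C * n)) ?_ (by positivity)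
  calc 2 ^ n * 2 ^ (C * n) = (2 ^ n) ^ (C + 1) := by
        rw [← pow_add, ← pow_mul]
        congr 1
        ring
    _ ≤ (σ ^ B) ^ (C + 1) := Nat.pow_le_pow_left hσ _
    _ = σ ^ (B * (C + 1)) := (pow_mul _ _ _).symm
    _ ≤ (m * E ^ Nat.log 2 c * (n + 1) ^ Nat.log 2 c * t.divisors.card) ^ (B * (C + 1)) :=
        Nat.pow_le_pow_left h4 _
    _ = (m * E ^ Nat.log 2 c) ^ (B * (C + 1)) * (n + 1) ^ (Nat.log 2 c * (B * (C + 1))) *
        t.divisors.card ^ (B * (C + 1)) := by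
        rw [mul_pow, mul_pow (m * _), ← pow_mul]
    _ ≤ (m * E ^ Nat.log 2 c) ^ (B * (C + 1)) * (n + 1) ^ (Nat.log 2 c * (B * (C + 1))) *
        (K * 2 ^ (C * n)) := Nat.mul_le_mul_left _ h3
    _ = _ := by ring

theorem card_le_semi (p m s : ℕ) [Fact p.Prime] : ∃ D,
    ∀ (k : Type) [Field k] [IsAlgClosed k] [CharP k p] (G : Type) [Group G] [Finite G],
      (∀ N : Subgroup G, N.Normal → (∀ a ∈ N, ∀ b ∈ N, a * b = b * a) → N = ⊥) →
      BrLe k G m → SecLe k G m s → Nat.card G ≤ D := by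
  obtain ⟨C, hC1, hC⟩ := num_C ((s * 2 ^ s.factorial + 1) ^ 2 + 1)
  obtain ⟨B, hB⟩ := intr hC hC1
  obtain ⟨n₀, h₀⟩ := num_top m s.factorial C B s.factorial_ne_zero
  refine ⟨C ^ n₀ * s.factorial ^ n₀, fun k _ _ _ G _ _ hG hm hs => ?_⟩
  have hS := sec_of k m s _ G rfl hm hs
  obtain ⟨T, hT, hc⟩ := exists_maxCF hG
  let : MulAction G (Subgroup G) := { smul := cj, one_smul := cj_one, mul_smul := cj_mul }
  obtain ⟨⟨K, hK1, hK2⟩, ι, _, D, hD1, hD2, hD3⟩ := hB G hS.pb (Subgroup G) T hT.cj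
  have : Fintype T := Fintype.ofFinite T
  have hK : ∀ S : T, K ≤ Subgroup.normalizer (S.1 : Set G) :=
    fun S g hg => cj_eq_iff.1 (hK2 g hg S S.2)
  have hd : Nat.card K ∣ s.factorial ^ T.ncard := by
    let : ∀ S : T, MulAction K S.1 := fun S => MulAction.compHom S.1 (Subgroup.inclusion (hK S))
    have h1 := index_dvd_pi (H := K) (X := fun S : T => S.1)
      (fun S => (hT.sn S S.2).card_le hS) ⊥ fun g hg => Subtype.ext (hc g fun S h x hx =>
        (mul_inv_eq_iff_eq_mul.1 (congrArg Subtype.val (hg ⟨S, h⟩ ⟨x, hx⟩))).symm)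
    rwa [Subgroup.index_bot, ← Nat.card_eq_fintype_card, Nat.card_coe_set_eq] at h1
  have h1 := supp_count (p := p) hm hT D hD1 hD2
    (mul_ne_zero (pow_ne_zero _ s.factorial_ne_zero) Nat.card_pos.ne') (deg_dvd s _ G rfl hS)
  rw [← K.index_mul_card] at h1 ⊢
  have h2 := h₀ _ _ _ _ Subgroup.index_ne_zero_of_finite hd hK1 hD3 h1
  exact Nat.mul_le_mul (hK1.trans (Nat.pow_le_pow_right hC1 h2))
    ((Nat.le_of_dvd (by positivity) hd).trans (Nat.pow_le_pow_right s.factorial_pos h2))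

theorem index_rad (p m s : ℕ) [Fact p.Prime] : ∃ D,
    ∀ (k : Type) [Field k] [IsAlgClosed k] [CharP k p] (G : Type) [Group G] [Finite G]
      (R : Subgroup G) [R.Normal], BrLe k G m → SecLe k G m s → Group.IsSolvable R →
      (∀ N : Subgroup G, N.Normal → Group.IsSolvable N → N ≤ R) → R.index ≤ D := by
  obtain ⟨D, hD⟩ := card_le_semi p m s
  refine ⟨D, fun k _ _ _ G _ _ R _ hm hs hR hmax => ?_⟩
  have hπ := QuotientGroup.mk'_surjective R
  refine hD k (G ⧸ R) (fun N hN hab => ?_) (hm.of_surj _ hπ) (secLe_surj hs _ hπ)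
  have hle : R ≤ N.comap (QuotientGroup.mk' R) := by
    intro y hy
    have : QuotientGroup.mk' R y = 1 := (QuotientGroup.eq_one_iff y).2 hy
    rw [Subgroup.mem_comap, this]
    exact N.one_mem
  have : Group.IsSolvable N := Group.isSolvable_of_comm fun a b => Subtype.ext (hab a a.2 b b.2)
  have h1 := hmax _ (hN.comap (QuotientGroup.mk' R)) (Group.isSolvable_of_ker_le_range
    (Subgroup.inclusion hle) ((QuotientGroup.mk' R).subgroupComap N) fun x hx =>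
      ⟨⟨x, (QuotientGroup.eq_one_iff (x : G)).1 (congrArg Subtype.val hx)⟩, rfl⟩)
  rw [← Subgroup.map_comap_eq_self_of_surjective hπ N, Subgroup.map_eq_bot_iff,
    QuotientGroup.ker_mk']
  exact h1

end Pool.Agent.Lib.MP_98dfd6_al.AS
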